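import Pool.Agent.W5h51.TP.Tgt
set_option autoImplicit false

/-! Asymptotics for the target graphs. -/

open scoped Classical

namespace Pool.Agent.W5h51.TP

section

variable {β : Type} [Fintype β] (G : SimpleGraph β)

/-- the first linear functional -/
noncomputable def fa : ℝ := lp G {9, 11} + lp G {9, 12} + lp G {10, 11} + lp G {10, 12} + lp G {11, 12}
        + lg G {9, 11, 12} + lg G {10, 11, 12} + lg G {9, 10} + lg G {11} + lg G {12}
        - 10 * lv G
/-- the second linear functional -/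
noncomputable def fb : ℝ := lp G {9, 11} + lp G {9, 12} + 2 * lp G {11, 12}
        + 2 * lg G {9, 11, 12} + lg G {11} + lg G {12} - 8 * lv G

instance neP (S : Finset (Fin 13)) [h : Nonempty (Q →g G)] : Nonempty (PG S →g G) :=
  h.map (restr G S)

instance neG (S : Finset (Fin 13)) [h : Nonempty (Q →g G)] : Nonempty (GG S →g G) :=
  h.map (fun f => glue G S (f, f) (fun _ _ => rfl))

theorem lp_le (S : Finset (Fin 13)) [Nonempty (Q →g G)] (b : ℕ)
    (h : Nat.card (PG S →g G) ≤ b) : lp G S ≤ Real.log b := by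
  unfold lp
  exact Real.log_le_log (by exact_mod_cast Nat.card_pos) (by exact_mod_cast h)

theorem lg_le (S : Finset (Fin 13)) [Nonempty (Q →g G)] (b : ℕ) (hb : 0 < b)
    (h : Nat.card (GG S →g G) ≤ Nat.card (Q →g G) * b) : lg G S ≤ lv G + Real.log b := by
  unfold lg lv
  rw [← Real.log_mul (by exact_mod_cast Nat.card_pos.ne') (by exact_mod_cast hb.ne')]
  exact Real.log_le_log (by exact_mod_cast Nat.card_pos) (by exact_mod_cast h)

end

theorem choose_ratio (d : ℕ) (hd : 1 ≤ d) :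
    (4 * d ^ 2).choose d ≤ 2 * (4 * d ^ 2 - d).choose d := by
  have h1 : (4 * d ^ 2).choose d * d.factorial ≤ (4 * d ^ 2) ^ d := by
    rw [mul_comm, ← Nat.descFactorial_eq_factorial_mul_choose]
    exact Nat.descFactorial_le_pow _ _
  have h2 : (4 * d ^ 2 - d + 1 - d) ^ d ≤ (4 * d ^ 2 - d).choose d * d.factorial := by
    rw [mul_comm (Nat.choose (4 * d ^ 2 - d) d), ← Nat.descFactorial_eq_factorial_mul_choose]
    exact Nat.pow_sub_le_descFactorial _ _
  have h3 : (4 * d ^ 2) ^ d ≤ 2 * (4 * d ^ 2 - d + 1 - d) ^ d := by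
    have hle : 2 * d ≤ 4 * d ^ 2 := by nlinarith
    have e : ((4 * d ^ 2 - d + 1 - d : ℕ) : ℝ) = 4 * (d : ℝ) ^ 2 - (2 * d - 1) := by
      have : 4 * d ^ 2 - d + 1 - d = 4 * d ^ 2 + 1 - 2 * d := by omega
      rw [this, Nat.cast_sub (by omega)]
      push_cast
      ring
    have hd' : (1 : ℝ) ≤ d := by exact_mod_cast hd
    have hL : (0 : ℝ) < 4 * (d : ℝ) ^ 2 := by positivity
    have hB := one_add_mul_le_pow (a := -((2 * (d : ℝ) - 1) / (4 * (d : ℝ) ^ 2)))
      (by
        have : (2 * (d : ℝ) - 1) / (4 * (d : ℝ) ^ 2) ≤ 2 := by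
          rw [div_le_iff₀ hL]; nlinarith
        linarith) d
    have h4 : (1 : ℝ) / 2 ≤ 1 + d * -((2 * (d : ℝ) - 1) / (4 * (d : ℝ) ^ 2)) := by
      have : (d : ℝ) * ((2 * (d : ℝ) - 1) / (4 * (d : ℝ) ^ 2)) ≤ 1 / 2 := by
        rw [← mul_div_assoc, div_le_iff₀ hL]
        nlinarith
      linarith
    have h5 : 1 + -((2 * (d : ℝ) - 1) / (4 * (d : ℝ) ^ 2)) =
        (4 * (d : ℝ) ^ 2 - (2 * d - 1)) / (4 * (d : ℝ) ^ 2) := by
      field_simp
      ring
    rw [h5, div_pow] at hB
    have h6 := h4.trans hB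
    rw [le_div_iff₀ (by positivity)] at h6
    have h7 : (4 * (d : ℝ) ^ 2) ^ d ≤ 2 * (4 * (d : ℝ) ^ 2 - (2 * d - 1)) ^ d := by linarith
    rw [← e] at h7
    exact_mod_cast h7
  have h4 : (4 * d ^ 2).choose d * d.factorial ≤
      (2 * (4 * d ^ 2 - d).choose d) * d.factorial := by
    calc (4 * d ^ 2).choose d * d.factorial ≤ (4 * d ^ 2) ^ d := h1
      _ ≤ 2 * (4 * d ^ 2 - d + 1 - d) ^ d := h3
      _ ≤ 2 * ((4 * d ^ 2 - d).choose d * d.factorial) := Nat.mul_le_mul_left _ h2
      _ = _ := by ring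
  exact Nat.le_of_mul_le_mul_right h4 (Nat.factorial_pos d)

/-- bounds for the two functionals -/
theorem fab_le (m d : ℕ) (hd : 1 ≤ d) (hm : 1 ≤ m) :
    Nonempty (Q →g TG (m + 4 * d ^ 2) m d) ∧
    fa (TG (m + 4 * d ^ 2) m d) ≤ 2 * Real.log (m + d) + 2 * Real.log 2 - Real.log m
      - 2 * Real.log (d + 1) ∧
    fb (TG (m + 4 * d ^ 2) m d) ≤ 2 * Real.log (m + d) - 2 * Real.log m := by
  set n := m + 4 * d ^ 2 with hn
  have hle : 2 * d ≤ 4 * d ^ 2 := by nlinarith
  have e1 : n - m = 4 * d ^ 2 := by omega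
  have e2 : n - (m + d) = 4 * d ^ 2 - d := by omega
  have pF : 0 < n.choose (m + d) := Nat.choose_pos (by omega)
  have pu : 0 < (m + d).choose m := Nat.choose_pos (by omega)
  have pv : 0 < (m + d).choose (m - 1) := Nat.choose_pos (by omega)
  have pl : 0 < (n - (m + d)).choose d := Nat.choose_pos (by omega)
  have pc : 0 < (n - m).choose d := Nat.choose_pos (by omega)
  have hH := card_Q_ge (n := n) (m := m) (d := d)
  have hpos : 0 < Nat.card (Q →g TG n m d) :=
    lt_of_lt_of_le (Nat.mul_pos pF (Nat.mul_pos (Nat.mul_pos pu hm) pl)) hH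
  have hne : Nonempty (Q →g TG n m d) := (Nat.card_pos_iff.1 hpos).1
  refine ⟨hne, ?_⟩
  have hcl := choose_ratio d hd
  rw [← e2, ← e1] at hcl
  have huv : (m + d).choose m * m = (m + d).choose (m - 1) * (d + 1) := by
    have := Nat.choose_succ_right_eq (m + d) (m - 1)
    have h1 : m - 1 + 1 = m := by omega
    have h2 : m + d - (m - 1) = d + 1 := by omega
    rw [h1, h2] at this
    exact this
  -- logs
  have rF : (0 : ℝ) < n.choose (m + d) := by exact_mod_cast pF
  have ru : (0 : ℝ) < (m + d).choose m := by exact_mod_cast pu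
  have rv : (0 : ℝ) < (m + d).choose (m - 1) := by exact_mod_cast pv
  have rl : (0 : ℝ) < (n - (m + d)).choose d := by exact_mod_cast pl
  have rc : (0 : ℝ) < (n - m).choose d := by exact_mod_cast pc
  have rm : (0 : ℝ) < m := by exact_mod_cast hm
  have rmd : (0 : ℝ) < (m : ℝ) + d := by positivity
  have rd : (0 : ℝ) < (d : ℝ) + 1 := by positivity
  have lH : Real.log (n.choose (m + d)) + Real.log ((m + d).choose m) + Real.log m +
      Real.log ((n - (m + d)).choose d) ≤ lv (TG n m d) := by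
    unfold lv
    rw [← Real.log_mul rF.ne' ru.ne', ← Real.log_mul (mul_pos rF ru).ne' rm.ne',
      ← Real.log_mul (mul_pos (mul_pos rF ru) rm).ne' rl.ne']
    refine Real.log_le_log (mul_pos (mul_pos (mul_pos rF ru) rm) rl) ?_
    refine le_trans (le_of_eq ?_) (Nat.cast_le.2 hH)
    push_cast
    ring
  have l9 : ∀ c : Fin 13, (c = 11 ∨ c = 12) → lp (TG n m d) {9, c} ≤
      Real.log (n.choose (m + d)) + Real.log (m + d) := by
    intro c hc
    have h := lp_le (TG n m d) {9, c} _ (card_P 9 c 1 (by rcases hc with rfl | rfl <;> decide)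
      (by rcases hc with rfl | rfl; exacts [adj_911, adj_912]) (Or.inl rfl) hc
      (fun s hs => hs.2.1 rfl)
      (fun s hs => by rcases hc with rfl | rfl; exacts [hs.2.2.2.1 rfl, hs.2.2.2.2 rfl]))
    refine h.trans (le_of_eq ?_)
    rw [Nat.choose_one_right]
    push_cast
    rw [Real.log_mul rF.ne' rmd.ne']
  have l10 : ∀ c : Fin 13, (c = 11 ∨ c = 12) → lp (TG n m d) {10, c} ≤
      Real.log (n.choose (m + d)) + Real.log ((m + d).choose (m - 1)) := by
    intro c hc
    have h := lp_le (TG n m d) {10, c} _ (card_P 10 c (m - 1)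
      (by rcases hc with rfl | rfl <;> decide)
      (by rcases hc with rfl | rfl; exacts [adj_1011, adj_1012]) (Or.inr rfl) hc
      (fun s hs => by have := hs.2.2.1 rfl; omega)
      (fun s hs => by rcases hc with rfl | rfl; exacts [hs.2.2.2.1 rfl, hs.2.2.2.2 rfl]))
    refine h.trans (le_of_eq ?_)
    push_cast
    rw [Real.log_mul rF.ne' rv.ne']
  have lcd : lp (TG n m d) {11, 12} ≤ Real.log (n.choose (m + d)) +
      Real.log ((m + d).choose m) + Real.log ((n - (m + d)).choose d) := by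
    have h := lp_le (TG n m d) {11, 12} _ card_PCD
    refine h.trans (le_of_eq ?_)
    push_cast
    rw [Real.log_mul rF.ne' (mul_pos ru rl).ne', Real.log_mul ru.ne' rl.ne']
    ring
  have g1 := lg_le (TG n m d) {9, 11, 12} 1 one_pos card_GACD
  have g2 := lg_le (TG n m d) {10, 11, 12} 1 one_pos card_GBCD
  rw [Nat.cast_one, Real.log_one, add_zero] at g1 g2
  have g3 : lg (TG n m d) {9, 10} ≤ lv (TG n m d) + 2 * Real.log ((n - m).choose d) := by
    have h := lg_le (TG n m d) {9, 10} _ (Nat.mul_pos pc pc) card_GAB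
    refine h.trans (le_of_eq ?_)
    push_cast
    rw [Real.log_mul rc.ne' rc.ne']
    ring
  have g4 : ∀ u : Fin 13, (u = 11 ∨ u = 12) → lg (TG n m d) {u} ≤ lv (TG n m d) +
      Real.log ((m + d).choose m) + Real.log m + Real.log ((n - (m + d)).choose d) := by
    intro u hu
    have h : lg (TG n m d) {u} ≤ lv (TG n m d) +
        Real.log ((((m + d).choose m * m) * (n - (m + d)).choose d : ℕ) : ℝ) := by
      rcases hu with rfl | rfl
      · exact lg_le (TG n m d) {11} _ (Nat.mul_pos (Nat.mul_pos pu hm) pl)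
          (card_GU 11 12 (Or.inl ⟨rfl, rfl⟩))
      · exact lg_le (TG n m d) {12} _ (Nat.mul_pos (Nat.mul_pos pu hm) pl)
          (card_GU 12 11 (Or.inr ⟨rfl, rfl⟩))
    refine h.trans (le_of_eq ?_)
    push_cast
    rw [Real.log_mul (mul_pos ru rm).ne' rl.ne', Real.log_mul ru.ne' rm.ne']
    ring
  have lv1 : Real.log ((m + d).choose (m - 1)) + Real.log (d + 1) =
      Real.log ((m + d).choose m) + Real.log m := by
    rw [← Real.log_mul rv.ne' rd.ne', ← Real.log_mul ru.ne' rm.ne']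
    congr 1
    exact_mod_cast huv.symm
  have lc1 : Real.log ((n - m).choose d) ≤ Real.log 2 + Real.log ((n - (m + d)).choose d) := by
    rw [← Real.log_mul (by norm_num) rl.ne']
    exact Real.log_le_log rc (by exact_mod_cast hcl)
  have a1 := l9 11 (Or.inl rfl)
  have a2 := l9 12 (Or.inr rfl)
  have a3 := l10 11 (Or.inl rfl)
  have a4 := l10 12 (Or.inr rfl)
  have a5 := g4 11 (Or.inl rfl)
  have a6 := g4 12 (Or.inr rfl)
  constructor
  · unfold fa
    linarith
  · unfold fb
    linarith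

/-- the two functionals cannot be combined to a nonnegative one -/
theorem fab_neg (M : ℝ) (hM : 0 ≤ M) : ∃ n m d : ℕ, Nonempty (Q →g TG n m d) ∧
    fa (TG n m d) + M * fb (TG n m d) < 0 := by
  obtain ⟨k, hk⟩ := exists_nat_gt (4 + 2 * M)
  set t := 2 ^ k with ht
  have ht1 : 1 ≤ t := Nat.one_le_two_pow
  have hm : 1 ≤ t ^ 3 := Nat.one_le_pow _ _ ht1
  have hd : 1 ≤ t ^ 2 := Nat.one_le_pow _ _ ht1
  obtain ⟨h1, h2, h3⟩ := fab_le (t ^ 3) (t ^ 2) hd hm
  refine ⟨_, _, _, h1, ?_⟩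
  have l2 : 0 < Real.log 2 := Real.log_pos (by norm_num)
  have rt : (0 : ℝ) < t := by exact_mod_cast ht1
  have rt1 : (1 : ℝ) ≤ t := by exact_mod_cast ht1
  have lt : Real.log t = k * Real.log 2 := by
    rw [ht]
    push_cast
    rw [Real.log_pow]
  have b1 : Real.log (((t ^ 3 : ℕ) : ℝ) + ((t ^ 2 : ℕ) : ℝ)) ≤ Real.log 2 + 3 * Real.log t := by
    have : (3 : ℝ) * Real.log t = Real.log ((t : ℝ) ^ 3) := by
      rw [Real.log_pow]; norm_num
    rw [this, ← Real.log_mul (by norm_num) (by positivity)]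
    refine Real.log_le_log (by positivity) ?_
    push_cast
    have : (t : ℝ) ^ 2 ≤ (t : ℝ) ^ 3 := pow_le_pow_right₀ rt1 (by norm_num)
    linarith
  have b2 : Real.log ((t ^ 3 : ℕ) : ℝ) = 3 * Real.log t := by
    push_cast
    rw [Real.log_pow]; norm_num
  have b3 : 2 * Real.log t ≤ Real.log (((t ^ 2 : ℕ) : ℝ) + 1) := by
    have : (2 : ℝ) * Real.log t = Real.log ((t : ℝ) ^ 2) := by
      rw [Real.log_pow]; norm_num
    rw [this]
    refine Real.log_le_log (by positivity) ?_
    push_cast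
    linarith
  have c1 : fa (TG (t ^ 3 + 4 * (t ^ 2) ^ 2) (t ^ 3) (t ^ 2)) ≤ 4 * Real.log 2 - Real.log t := by
    refine h2.trans ?_
    linarith
  have c2 : fb (TG (t ^ 3 + 4 * (t ^ 2) ^ 2) (t ^ 3) (t ^ 2)) ≤ 2 * Real.log 2 := by
    refine h3.trans ?_
    linarith
  have c3 := mul_le_mul_of_nonneg_left c2 hM
  have c4 : (4 + 2 * M) * Real.log 2 < k * Real.log 2 := mul_lt_mul_of_pos_right hk l2
  rw [lt] at c1
  nlinarith

end Pool.Agent.W5h51.TP
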