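import Mathlib
set_option autoImplicit false

/-! Graph profiles, their tropicalizations and polyhedral cones: definitions. -/

open Topology Filter

namespace Pool.Agent.W5h51.TP

/-- A finite graph: a nonempty finite type of vertices with a simple graph on it. -/
structure FinGraph where
  /-- the vertices -/
  V : Type
  /-- there are finitely many vertices -/
  fin : Finite V
  /-- there is at least one vertex -/
  ne : Nonempty V
  /-- the graph -/
  graph : SimpleGraph V

/-- The homomorphism density `t(H;G)`: the proportion of the maps `V(H) → V(G)` which send every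
edge of `H` to an edge of `G`. -/
noncomputable def homDensity (H G : FinGraph) : ℝ :=
  (Nat.card {f : H.V → G.V // ∀ u v, H.graph.Adj u v → G.graph.Adj (f u) (f v)} : ℝ) /
    (Nat.card (H.V → G.V) : ℝ)

/-- The graph profile of `C 0, …, C (s - 1)`: the closure of the set of all vectors of
homomorphism densities. -/
def profile {s : ℕ} (C : Fin s → FinGraph) : Set (Fin s → ℝ) :=
  closure (Set.range fun G : FinGraph => fun i => homDensity (C i) G)

/-- The image of the vectors of `S` with positive coordinates under the coordinatewise logarithm to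
the base `b`. -/
def logSet {s : ℕ} (b : ℝ) (S : Set (Fin s → ℝ)) : Set (Fin s → ℝ) :=
  {y | ∃ v ∈ S, (∀ i, 0 < v i) ∧ ∀ i, y i = Real.logb b (v i)}

/-- `L` is the limit of the sets `A t` as `t → 0+` in the sense of Painleve and Kuratowski: the
lower limit contains `L` and the upper limit is contained in `L`. -/
def IsPKLimit {s : ℕ} (A : ℝ → Set (Fin s → ℝ)) (L : Set (Fin s → ℝ)) : Prop :=
  (∀ y ∈ L, ∀ U ∈ 𝓝 y, ∀ᶠ t in 𝓝[>] (0 : ℝ), (U ∩ A t).Nonempty) ∧
    (∀ y, (∀ U ∈ 𝓝 y, ∃ᶠ t in 𝓝[>] (0 : ℝ), (U ∩ A t).Nonempty) → y ∈ L)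

/-- `L` is the tropicalization (logarithmic limit set) of `S`: the limit as `t → 0+` of the
images of `S` under the logarithm to the base `1 / t`. -/
def IsTrop {s : ℕ} (S L : Set (Fin s → ℝ)) : Prop :=
  IsPKLimit (fun t => logSet (1 / t) S) L

/-- The conical hull: all linear combinations with nonnegative coefficients. -/
def coneHull {s : ℕ} (S : Set (Fin s → ℝ)) : Set (Fin s → ℝ) :=
  {y | ∃ (k : ℕ) (c : Fin k → ℝ) (x : Fin k → Fin s → ℝ),
    (∀ j, 0 ≤ c j) ∧ (∀ j, x j ∈ S) ∧ y = ∑ j, c j • x j}

/-- `L` is an intersection of finitely many closed half-spaces `{y : a · y ≥ 0}`. -/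
def IsPolyhedralCone {s : ℕ} (L : Set (Fin s → ℝ)) : Prop :=
  ∃ (r : ℕ) (a : Fin r → Fin s → ℝ), L = {y | ∀ j, 0 ≤ ∑ i, a j i * y i}

end Pool.Agent.W5h51.TP
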