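import Pool.Agent.H137R2.PFR.Bsg
set_option autoImplicit false

/-! Entropy: kernels, log-cardinality bound, collision bound. -/

open scoped Classical

namespace Pool.Agent.W5h51.TP

open H137.PFR H137.PFR.BSG

variable {Ω α β γ δ ζ : Type*} [Fintype Ω] [Fintype α] [Fintype β] [Fintype γ] [Fintype δ]
  [Fintype ζ]

/-- the entropy depends on the kernel of the random variable only -/
theorem H_congr (w : Ω → ℝ) (X : Ω → α) (Y : Ω → β)
    (h : ∀ ω ω', X ω = X ω' ↔ Y ω = Y ω') : H w X = H w Y := by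
  rw [H_key X, H_key Y]
  refine Finset.sum_congr rfl fun ω _ => ?_
  have : push w X (X ω) = push w Y (Y ω) := by
    unfold push
    refine Finset.sum_congr rfl fun ω' _ => ?_
    by_cases h1 : X ω' = X ω
    · rw [if_pos h1, if_pos ((h _ _).1 h1)]
    · rw [if_neg h1, if_neg (fun h2 => h1 ((h _ _).2 h2))]
  rw [this]

/-- a random variable that factors through a finite type has entropy at most log card -/
theorem H_le_log_card {w : Ω → ℝ} (hw : Law w) (X : Ω → α) : H w X ≤ Real.log (Fintype.card α) := by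
  have h := H112.ent_le_log_card (isLaw_toF (law_push hw X)) (s := Finset.univ)
    (Finset.subset_univ _)
  rw [ent_toF] at h
  simpa [H] using h

theorem H_le_of_ker {w : Ω → ℝ} (hw : Law w) (X : Ω → α) (Y : Ω → β)
    (h : ∀ ω ω', Y ω = Y ω' → X ω = X ω') : H w X ≤ H w Y := by
  have h1 : H w (fun ω => (X ω, Y ω)) = H w Y := H_congr w _ _ fun ω ω' => by
    constructor
    · intro h2; exact (Prod.ext_iff.1 h2).2
    · intro h2; exact Prod.ext (h _ _ h2) h2
  rw [← h1]
  exact H_comp_le hw (fun ω => (X ω, Y ω)) Prod.fst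

/-- submodularity in kernel form -/
theorem H_submod_ker {w : Ω → ℝ} (hw : Law w) (X : Ω → α) (Y : Ω → β) (U : Ω → γ) (Z : Ω → δ)
    (hU : ∀ ω ω', (X ω = X ω' ∧ Y ω = Y ω') → U ω = U ω')
    (hZX : ∀ ω ω', X ω = X ω' → Z ω = Z ω') (hZY : ∀ ω ω', Y ω = Y ω' → Z ω = Z ω') :
    H w U + H w Z ≤ H w X + H w Y := by
  have h := H_submod hw X Y Z
  have h1 : H w (fun ω => (X ω, Z ω)) = H w X := H_congr w _ _ fun ω ω' => by
    constructor
    · intro h2; exact (Prod.ext_iff.1 h2).1
    · intro h2; exact Prod.ext h2 (hZX _ _ h2)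
  have h2 : H w (fun ω => (Y ω, Z ω)) = H w Y := H_congr w _ _ fun ω ω' => by
    constructor
    · intro h2; exact (Prod.ext_iff.1 h2).1
    · intro h2; exact Prod.ext h2 (hZY _ _ h2)
  have h3 : H w U ≤ H w (fun ω => (X ω, Y ω, Z ω)) := by
    refine H_le_of_ker hw _ _ fun ω ω' h4 => ?_
    have h5 := Prod.ext_iff.1 h4
    exact hU _ _ ⟨h5.1, (Prod.ext_iff.1 h5.2).1⟩
  rw [h1, h2] at h
  linarith

/-- the uniform law -/
noncomputable def unifw (Ω : Type*) [Fintype Ω] : Ω → ℝ := fun _ => (Fintype.card Ω : ℝ)⁻¹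

theorem law_unifw [Nonempty Ω] : Law (unifw Ω) := by
  constructor
  · intro x; unfold unifw; positivity
  · unfold unifw
    rw [Finset.sum_const, Finset.card_univ, nsmul_eq_mul, mul_inv_cancel₀]
    exact_mod_cast Fintype.card_ne_zero

/-- the number of pairs of points with the same value of `X` -/
noncomputable def coll (X : Ω → α) : ℕ := Fintype.card {q : Ω × Ω // X q.1 = X q.2}

omit [Fintype α] in
theorem coll_eq (X : Ω → α) : (coll X : ℝ) = ∑ ω, ∑ ω', if X ω' = X ω then (1 : ℝ) else 0 := by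
  unfold coll
  rw [Fintype.card_subtype, Finset.card_filter, Fintype.sum_prod_type]
  push_cast
  refine Finset.sum_congr rfl fun ω _ => Finset.sum_congr rfl fun ω' _ => ?_
  by_cases h : X ω = X ω'
  · simp [h]
  · rw [if_neg h, if_neg (fun h2 => h h2.symm)]

/-- collision bound -/
theorem H_ge_coll [Nonempty Ω] (X : Ω → α) :
    2 * Real.log (Fintype.card Ω) - Real.log (coll X) ≤ H (unifw Ω) X := by
  have hN : (0 : ℝ) < Fintype.card Ω := by exact_mod_cast Fintype.card_pos
  have hp : ∀ ω, push (unifw Ω) X (X ω) = (Fintype.card Ω : ℝ)⁻¹ *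
      ∑ ω', if X ω' = X ω then (1 : ℝ) else 0 := by
    intro ω
    unfold push unifw
    rw [Finset.mul_sum]
    refine Finset.sum_congr rfl fun ω' _ => ?_
    split_ifs <;> simp
  have hpos : ∀ ω, (0 : ℝ) < ∑ ω', if X ω' = X ω then (1 : ℝ) else 0 := by
    intro ω
    refine lt_of_lt_of_le one_pos ?_
    have := Finset.single_le_sum (s := Finset.univ)
      (f := fun ω' => if X ω' = X ω then (1 : ℝ) else 0)
      (fun o _ => by split_ifs <;> norm_num) (Finset.mem_univ ω)
    simpa using this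
  rw [H_key X]
  -- Jensen
  have hJ : ∑ ω, unifw Ω ω * Real.log (push (unifw Ω) X (X ω)) ≤
      Real.log (∑ ω, unifw Ω ω * push (unifw Ω) X (X ω)) := by
    have hl := law_unifw (Ω := Ω)
    have := strictConcaveOn_log_Ioi.concaveOn.le_map_sum (t := Finset.univ) (w := unifw Ω)
      (p := fun ω => push (unifw Ω) X (X ω)) (fun i _ => hl.1 i) hl.2
      (fun i _ => by rw [hp i]; exact mul_pos (inv_pos.2 hN) (hpos i))
    simpa [smul_eq_mul] using this
  have hs : ∑ ω, unifw Ω ω * push (unifw Ω) X (X ω) =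
      (coll X : ℝ) / (Fintype.card Ω : ℝ) ^ 2 := by
    rw [coll_eq, Finset.sum_div]
    refine Finset.sum_congr rfl fun ω _ => ?_
    rw [hp ω]
    unfold unifw
    field_simp
  have hc : (0 : ℝ) < coll X := by
    rw [coll_eq]
    exact Finset.sum_pos (fun ω _ => hpos ω) Finset.univ_nonempty
  rw [hs, Real.log_div hc.ne' (by positivity), Real.log_pow] at hJ
  have e : ∑ ω, unifw Ω ω * -Real.log (push (unifw Ω) X (X ω)) =
      -∑ ω, unifw Ω ω * Real.log (push (unifw Ω) X (X ω)) := by
    rw [← Finset.sum_neg_distrib]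
    exact Finset.sum_congr rfl fun ω _ => by ring
  rw [e]
  push_cast at hJ
  linarith

end Pool.Agent.W5h51.TP
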