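import Pool.Agent.W5h51.TP.Trop
import Pool.Agent.W5h51.TP.Asy
set_option autoImplicit false

/-! The family of patterns. -/

open Topology Filter

namespace Pool.Agent.W5h51.TP

instance (G : FinGraph) : Finite G.V := G.fin
instance (G : FinGraph) : Nonempty G.V := G.ne

/-- homomorphisms as maps -/
def homEquiv (H G : FinGraph) :
    {f : H.V → G.V // ∀ u v, H.graph.Adj u v → G.graph.Adj (f u) (f v)} ≃
      (H.graph →g G.graph) where
  toFun f := ⟨f.1, fun {u v} h => f.2 u v h⟩
  invFun f := ⟨f, fun _ _ h => f.map_rel' h⟩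
  left_inv _ := rfl
  right_inv _ := rfl

theorem homDensity_eq (H G : FinGraph) : homDensity H G =
    (Nat.card (H.graph →g G.graph) : ℝ) / (Nat.card G.V : ℝ) ^ Nat.card H.V := by
  unfold homDensity
  rw [Nat.card_congr (homEquiv H G), Nat.card_fun]
  push_cast
  rfl

theorem log_homDensity (H G : FinGraph) [Nonempty (H.graph →g G.graph)] :
    Real.log (homDensity H G) = Real.log (Nat.card (H.graph →g G.graph)) -
      Nat.card H.V * Real.log (Nat.card G.V) := by
  have h1 : (Nat.card (H.graph →g G.graph) : ℝ) ≠ 0 := by exact_mod_cast Nat.card_pos.ne'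
  have h2 : (Nat.card G.V : ℝ) ≠ 0 := by exact_mod_cast Nat.card_pos.ne'
  rw [homDensity_eq, Real.log_div h1 (pow_ne_zero _ h2), Real.log_pow]

theorem homDensity_pos_iff (H G : FinGraph) :
    0 < homDensity H G ↔ Nonempty (H.graph →g G.graph) := by
  rw [homDensity_eq]
  constructor
  · intro h
    by_contra hcon
    rw [not_nonempty_iff] at hcon
    rw [Nat.card_of_isEmpty] at h
    simp at h
  · intro h
    have h1 : (0 : ℝ) < Nat.card (H.graph →g G.graph) := by exact_mod_cast Nat.card_pos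
    have h2 : (0 : ℝ) < Nat.card G.V := by exact_mod_cast Nat.card_pos
    positivity

/-- the categorical product of graphs -/
def tens (G G' : FinGraph) : FinGraph where
  V := G.V × G'.V
  fin := inferInstance
  ne := inferInstance
  graph :=
    { Adj := fun p q => G.graph.Adj p.1 q.1 ∧ G'.graph.Adj p.2 q.2
      symm := ⟨fun _ _ h => ⟨h.1.symm, h.2.symm⟩⟩
      loopless := ⟨fun p h => G.graph.loopless.irrefl p.1 h.1⟩ }

theorem homDensity_tens (H G G' : FinGraph) :
    homDensity H (tens G G') = homDensity H G * homDensity H G' := by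
  have e : {f : H.V → (tens G G').V // ∀ u v, H.graph.Adj u v → (tens G G').graph.Adj (f u) (f v)} ≃
      {f : H.V → G.V // ∀ u v, H.graph.Adj u v → G.graph.Adj (f u) (f v)} ×
      {f : H.V → G'.V // ∀ u v, H.graph.Adj u v → G'.graph.Adj (f u) (f v)} :=
    { toFun := fun f => (⟨fun x => (f.1 x).1, fun u v h => (f.2 u v h).1⟩,
        ⟨fun x => (f.1 x).2, fun u v h => (f.2 u v h).2⟩)
      invFun := fun f => ⟨fun x => (f.1.1 x, f.2.1 x), fun u v h => ⟨f.1.2 u v h, f.2.2 u v h⟩⟩
      left_inv := fun _ => rfl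
      right_inv := fun _ => rfl }
  have e2 : Nat.card (H.V → (tens G G').V) = Nat.card (H.V → G.V) * Nat.card (H.V → G'.V) := by
    rw [Nat.card_fun, Nat.card_fun, Nat.card_fun, ← mul_pow]
    congr 1
    exact Nat.card_prod G.V G'.V
  unfold homDensity
  rw [Nat.card_congr e, Nat.card_prod, e2]
  push_cast
  rw [mul_div_mul_comm]

theorem profile_mul {s : ℕ} (C : Fin s → FinGraph) : ∀ v ∈ profile C, ∀ w ∈ profile C,
    v * w ∈ profile C := by
  intro v hv w hw
  refine map_mem_closure₂ continuous_mul hv hw ?_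
  rintro _ ⟨G, rfl⟩ _ ⟨G', rfl⟩
  refine ⟨tens G G', ?_⟩
  funext i
  exact homDensity_tens (C i) G G'

/-- linear inequalities pass to the tropicalization -/
theorem lin_nonneg {s : ℕ} (C : Fin s → FinGraph) (c : Fin s → ℝ)
    (h : ∀ G : FinGraph, (∀ i, 0 < homDensity (C i) G) →
      0 ≤ ∑ i, c i * Real.log (homDensity (C i) G)) :
    ∀ y ∈ closure (coneHull (logSet (Real.exp 1) (profile C))), 0 ≤ ∑ i, c i * y i := by
  have h1 : ∀ y ∈ logSet (Real.exp 1) (profile C), 0 ≤ ∑ i, c i * y i := by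
    rintro y ⟨v, hv, hv0, hv1⟩
    have e : ∀ i, y i = Real.log (v i) := fun i => by rw [hv1, Real.logb, Real.log_exp, div_one]
    simp only [e]
    by_contra hcon
    push Not at hcon
    have hc : ContinuousAt (fun w : Fin s → ℝ => ∑ i, c i * Real.log (w i)) v := by
      refine tendsto_finsetSum _ fun i _ => ?_
      refine Tendsto.const_mul _ ?_
      exact ((Real.continuousAt_log (hv0 i).ne').tendsto).comp ((continuous_apply i).tendsto v)
    have h2 : ∀ᶠ w in 𝓝 v, (∑ i, c i * Real.log (w i)) < 0 := hc.eventually (gt_mem_nhds hcon)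
    have h3 : ∀ᶠ w in 𝓝 v, ∀ i, 0 < w i :=
      eventually_all.2 fun i => (continuous_apply i).continuousAt.eventually (lt_mem_nhds (hv0 i))
    have h4 := mem_closure_iff_nhds.1 hv _ (h2.and h3)
    obtain ⟨w, ⟨hw1, hw2⟩, ⟨G, rfl⟩⟩ := h4
    exact absurd (h G hw2) (not_le.2 hw1)
  have h2 : ∀ y ∈ coneHull (logSet (Real.exp 1) (profile C)), 0 ≤ ∑ i, c i * y i := by
    rintro y ⟨k, a, x, ha, hx, rfl⟩
    have : ∑ i, c i * (∑ j, a j • x j) i = ∑ j, a j * ∑ i, c i * x j i := by
      simp only [Finset.sum_apply, Pi.smul_apply, smul_eq_mul, Finset.mul_sum]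
      rw [Finset.sum_comm]
      exact Finset.sum_congr rfl fun j _ => Finset.sum_congr rfl fun i _ => by ring
    rw [this]
    exact Finset.sum_nonneg fun j _ => mul_nonneg (ha j) (h1 _ (hx j))
  intro y hy
  have hcl : IsClosed {y : Fin s → ℝ | 0 ≤ ∑ i, c i * y i} := by
    refine isClosed_le continuous_const ?_
    exact continuous_finsetSum _ fun i _ => continuous_const.mul (continuous_apply i)
  exact closure_minimal h2 hcl hy

theorem conn_of {V : Type} (G : SimpleGraph V) (r : V)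
    (h : ∀ v, v = r ∨ G.Adj v r ∨ ∃ u, G.Adj v u ∧ G.Adj u r) : G.Connected := by
  rw [SimpleGraph.connected_iff_exists_forall_reachable]
  refine ⟨r, fun v => ?_⟩
  rcases h v with h | h | ⟨u, h1, h2⟩
  · rw [h]
  · exact h.symm.reachable
  · exact h2.symm.reachable.trans h1.symm.reachable

theorem near0 : ∀ i : Fin 13, i = 0 ∨ adjB i 0 = true ∨
    ∃ u : Fin 13, u.val < 9 ∧ adjB i u = true ∧ adjB u 0 = true := by decide +kernel

theorem zero_mem (S : Finset (Fin 13)) : (0 : Fin 13) ∈ cs S := core_mem S 0 (by decide)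

theorem Q_conn : Q.Connected := by
  refine conn_of Q 0 fun v => ?_
  rcases near0 v with h | h | ⟨u, _, h1, h2⟩
  · exact Or.inl h
  · exact Or.inr (Or.inl h)
  · exact Or.inr (Or.inr ⟨u, h1, h2⟩)

theorem PG_conn (S : Finset (Fin 13)) : (PG S).Connected := by
  refine conn_of (PG S) ⟨0, zero_mem S⟩ ?_
  rintro ⟨v, hv⟩
  rcases near0 v with h | h | ⟨u, hu, h1, h2⟩
  · exact Or.inl (Subtype.ext h)
  · exact Or.inr (Or.inl h)
  · exact Or.inr (Or.inr ⟨⟨u, core_mem S u hu⟩, h1, h2⟩)

theorem GG_conn (S : Finset (Fin 13)) : (GG S).Connected := by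
  refine conn_of (GG S) ⟨(0, false), fun h => absurd h Bool.false_ne_true⟩ ?_
  rintro ⟨⟨v, b⟩, hv⟩
  rcases near0 v with h | h | ⟨u, hu, h1, h2⟩
  · subst h
    left
    cases b
    · rfl
    · exact absurd (zero_mem S) (hv rfl)
  · exact Or.inr (Or.inl ⟨h, Or.inr (Or.inr (zero_mem S))⟩)
  · exact Or.inr (Or.inr ⟨⟨(u, false), fun h => absurd h Bool.false_ne_true⟩,
      ⟨h1, Or.inr (Or.inr (core_mem S u hu))⟩, ⟨h2, Or.inr (Or.inr (zero_mem S))⟩⟩)

/-- the type graph -/
def gQ : FinGraph := ⟨Fin 13, inferInstance, inferInstance, Q⟩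
/-- the patterns -/
def gP (S : Finset (Fin 13)) : FinGraph :=
  ⟨{i : Fin 13 // i ∈ cs S}, inferInstance, ⟨⟨0, zero_mem S⟩⟩, PG S⟩
/-- the glued patterns -/
def gG (S : Finset (Fin 13)) : FinGraph :=
  ⟨{p : Fin 13 × Bool // p.2 = true → p.1 ∉ cs S}, inferInstance,
    ⟨⟨(0, false), fun h => absurd h Bool.false_ne_true⟩⟩, GG S⟩

theorem card_gQ : Nat.card gQ.V = 13 := by
  change Nat.card (Fin 13) = 13
  simp

theorem card_gP (S : Finset (Fin 13)) : Nat.card (gP S).V = (cs S).card := by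
  change Nat.card {i : Fin 13 // i ∈ cs S} = _
  rw [Nat.card_eq_fintype_card, Fintype.card_coe]

theorem card_gG (S : Finset (Fin 13)) : Nat.card (gG S).V + (cs S).card = 26 := by
  have e : {p : Fin 13 × Bool // p.2 = true → p.1 ∉ cs S} ≃ Fin 13 ⊕ {i : Fin 13 // i ∉ cs S} :=
    { toFun := fun p => if h : p.1.2 = true then Sum.inr ⟨p.1.1, p.2 h⟩ else Sum.inl p.1.1
      invFun := fun x => x.elim (fun i => ⟨(i, false), fun h => absurd h Bool.false_ne_true⟩)
        (fun i => ⟨(i.1, true), fun _ => i.2⟩)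
      left_inv := by
        rintro ⟨⟨i, b⟩, hb⟩
        cases b <;> rfl
      right_inv := by
        rintro (i | i) <;> rfl }
  change Nat.card {p : Fin 13 × Bool // p.2 = true → p.1 ∉ cs S} + _ = 26
  rw [Nat.card_congr e, Nat.card_sum, Nat.card_eq_fintype_card, Nat.card_eq_fintype_card,
    Fintype.card_fin, Fintype.card_subtype_compl, Fintype.card_fin, Fintype.card_coe]
  have : (cs S).card ≤ 13 := by
    have := Finset.card_le_univ (cs S)
    simpa using this
  omega

end Pool.Agent.W5h51.TP
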