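import Pool.Agent.W5h51.TP.Fam
set_option autoImplicit false

/-! The tropicalization of the profile of the patterns is not polyhedral. -/

open Topology Filter

namespace Pool.Agent.W5h51.TP

/-- codes of the members of the family -/
def code : Fin 11 → Option (Finset (Fin 13) × Bool) :=
  ![none, some ({9, 11}, false), some ({9, 12}, false), some ({10, 11}, false),
    some ({10, 12}, false), some ({11, 12}, false), some ({9, 11, 12}, true),
    some ({10, 11, 12}, true), some ({9, 10}, true), some ({11}, true), some ({12}, true)]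

/-- the graph with a given code -/
def mkG : Option (Finset (Fin 13) × Bool) → FinGraph
  | none => gQ
  | some (S, false) => gP S
  | some (S, true) => gG S

/-- the family -/
def fam (i : Fin 11) : FinGraph := mkG (code i)

theorem fam_conn (i : Fin 11) : (fam i).graph.Connected := by
  unfold fam
  rcases code i with _ | ⟨S, b⟩
  · exact Q_conn
  · cases b
    · exact PG_conn S
    · exact GG_conn S

theorem isoP (S S' : Finset (Fin 13)) (e : PG S ≃g PG S') : cs S ⊆ cs S' := by
  intro i hi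
  have h := rigid {i | i ∈ cs S} (fun i hi => core_mem S i hi)
    (fun i => if h : i ∈ cs S then (e ⟨i, h⟩).1 else i) (by
      intro u hu v hv huv
      have hu' : u ∈ cs S := hu
      have hv' : v ∈ cs S := hv
      rw [dif_pos hu', dif_pos hv']
      have h1 : (PG S).Adj ⟨u, hu'⟩ ⟨v, hv'⟩ := huv
      exact e.map_adj_iff.2 h1)
  have h2 := h i hi
  rw [dif_pos hi] at h2
  rw [← h2]
  exact (e ⟨i, hi⟩).2

theorem isoG (S S' : Finset (Fin 13)) (e : GG S ≃g GG S') : cs S' ⊆ cs S := by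
  intro i hi
  by_contra hiS
  have h1 := rigid Set.univ (fun _ _ => trivial)
    (fun i => (e ⟨(i, false), fun h => absurd h Bool.false_ne_true⟩).1.1) (by
      intro u _ v _ huv
      have h : (GG S).Adj ⟨(u, false), fun h => absurd h Bool.false_ne_true⟩
        ⟨(v, false), fun h => absurd h Bool.false_ne_true⟩ := ⟨huv, Or.inl rfl⟩
      exact (e.map_adj_iff.2 h).1) i trivial
  let s : Fin 13 → {p : Fin 13 × Bool // p.2 = true → p.1 ∉ cs S} := fun i =>
    if hi : i ∈ cs S then ⟨(i, false), fun h => absurd h Bool.false_ne_true⟩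
    else ⟨(i, true), fun _ => hi⟩
  have s1 : ∀ i (hi : i ∈ cs S), s i = ⟨(i, false), fun h => absurd h Bool.false_ne_true⟩ :=
    fun i hi => dif_pos hi
  have s2 : ∀ i (hi : i ∉ cs S), s i = ⟨(i, true), fun _ => hi⟩ := fun i hi => dif_neg hi
  have h2 := rigid Set.univ (fun _ _ => trivial) (fun i => (e (s i)).1.1) (by
      intro u _ v _ huv
      have h : (GG S).Adj (s u) (s v) := by
        by_cases hi : u ∈ cs S <;> by_cases hj : v ∈ cs S
        · rw [s1 u hi, s1 v hj]
          exact ⟨huv, Or.inl rfl⟩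
        · rw [s1 u hi, s2 v hj]
          exact ⟨huv, Or.inr (Or.inl hi)⟩
        · rw [s2 u hi, s1 v hj]
          exact ⟨huv, Or.inr (Or.inr hj)⟩
        · rw [s2 u hi, s2 v hj]
          exact ⟨huv, Or.inl rfl⟩
      exact (e.map_adj_iff.2 h).1) i trivial
  rw [s2 i hiS] at h2
  have key : ∀ x : {p : Fin 13 × Bool // p.2 = true → p.1 ∉ cs S'}, x.1.1 = i →
      x.1 = (i, false) := by
    rintro ⟨⟨j, b⟩, hb⟩ hx
    simp only at hx
    subst hx
    cases b
    · rfl
    · exact absurd hi (hb rfl)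
  have h3 := key _ h1
  have h4 := key _ h2
  have h5 := e.injective (Subtype.ext (h3.trans h4.symm))
  have h6 := congrArg (fun x : {p : Fin 13 × Bool // p.2 = true → p.1 ∉ cs S} => x.1.2) h5
  exact Bool.false_ne_true h6

/-- number of vertices -/
def nv : Fin 11 → ℕ := ![13, 11, 11, 11, 11, 11, 14, 14, 15, 16, 16]

theorem fam_card (i : Fin 11) : Nat.card (fam i).V = nv i := by
  have hG : ∀ S : Finset (Fin 13), ∀ k : ℕ, (cs S).card = k → Nat.card (gG S).V = 26 - k := by
    intro S k h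
    have := card_gG S
    omega
  fin_cases i
  · exact card_gQ
  · exact (card_gP _).trans (by decide)
  · exact (card_gP _).trans (by decide)
  · exact (card_gP _).trans (by decide)
  · exact (card_gP _).trans (by decide)
  · exact (card_gP _).trans (by decide)
  · exact hG _ 12 (by decide)
  · exact hG _ 12 (by decide)
  · exact hG _ 11 (by decide)
  · exact hG _ 10 (by decide)
  · exact hG _ 10 (by decide)

theorem fam_noniso : Pairwise fun i j => IsEmpty ((fam i).graph ≃g (fam j).graph) := by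
  intro i j hij
  constructor
  intro e
  have h1 : nv i = nv j := by
    rw [← fam_card, ← fam_card]
    exact Nat.card_congr e.toEquiv
  have hP : ∀ S S' : Finset (Fin 13), ¬ cs S ⊆ cs S' → (PG S ≃g PG S') → False :=
    fun S S' h e => h (isoP S S' e)
  have hG : ∀ S S' : Finset (Fin 13), ¬ cs S' ⊆ cs S → (GG S ≃g GG S') → False :=
    fun S S' h e => h (isoG S S' e)
  fin_cases i <;> fin_cases j <;> first
    | exact absurd rfl hij
    | exact absurd h1 (by decide)
    | exact hP _ _ (by decide) e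
    | exact hG _ _ (by decide) e

/-- logarithms of the densities of the family -/
noncomputable def ly (G : FinGraph) (i : Fin 11) : ℝ := Real.log (homDensity (fam i) G)

instance neFam (G : FinGraph) [Nonempty (Q →g G.graph)] (i : Fin 11) :
    Nonempty ((fam i).graph →g G.graph) := by
  unfold fam
  rcases code i with _ | ⟨S, b⟩
  · exact (inferInstance : Nonempty (Q →g G.graph))
  · cases b
    · exact (inferInstance : Nonempty (PG S →g G.graph))
    · exact (inferInstance : Nonempty (GG S →g G.graph))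

theorem ly_eq (G : FinGraph) [Nonempty (Q →g G.graph)] (i : Fin 11) :
    ly G i = Real.log (Nat.card ((fam i).graph →g G.graph)) - nv i * Real.log (Nat.card G.V) := by
  unfold ly
  rw [log_homDensity, fam_card]

/-- coefficients of the two functionals -/
def ca : Fin 11 → ℝ := ![-10, 1, 1, 1, 1, 1, 1, 1, 1, 1, 1]
/-- coefficients of the two functionals -/
def cb : Fin 11 → ℝ := ![-8, 1, 1, 0, 0, 2, 2, 0, 0, 1, 1]

theorem ly_vals (G : FinGraph) [Nonempty (Q →g G.graph)] :
    ly G 0 = lv G.graph - 13 * Real.log (Nat.card G.V) ∧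
    ly G 1 = lp G.graph {9, 11} - 11 * Real.log (Nat.card G.V) ∧
    ly G 2 = lp G.graph {9, 12} - 11 * Real.log (Nat.card G.V) ∧
    ly G 3 = lp G.graph {10, 11} - 11 * Real.log (Nat.card G.V) ∧
    ly G 4 = lp G.graph {10, 12} - 11 * Real.log (Nat.card G.V) ∧
    ly G 5 = lp G.graph {11, 12} - 11 * Real.log (Nat.card G.V) ∧
    ly G 6 = lg G.graph {9, 11, 12} - 14 * Real.log (Nat.card G.V) ∧
    ly G 7 = lg G.graph {10, 11, 12} - 14 * Real.log (Nat.card G.V) ∧
    ly G 8 = lg G.graph {9, 10} - 15 * Real.log (Nat.card G.V) ∧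
    ly G 9 = lg G.graph {11} - 16 * Real.log (Nat.card G.V) ∧
    ly G 10 = lg G.graph {12} - 16 * Real.log (Nat.card G.V) := by
  refine ⟨?_, ?_, ?_, ?_, ?_, ?_, ?_, ?_, ?_, ?_, ?_⟩
  all_goals
    rw [ly_eq]
    rfl

theorem sum11 (c y : Fin 11 → ℝ) : ∑ i, c i * y i = c 0 * y 0 + c 1 * y 1 + c 2 * y 2 + c 3 * y 3 +
    c 4 * y 4 + c 5 * y 5 + c 6 * y 6 + c 7 * y 7 + c 8 * y 8 + c 9 * y 9 + c 10 * y 10 := by
  simp only [Fin.sum_univ_succ, Fin.sum_univ_zero]
  change c 0 * y 0 + (c 1 * y 1 + (c 2 * y 2 + (c 3 * y 3 + (c 4 * y 4 + (c 5 * y 5 + (c 6 * y 6 +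
    (c 7 * y 7 + (c 8 * y 8 + (c 9 * y 9 + (c 10 * y 10 + 0)))))))))) = _
  ring

theorem sum_ca (y : Fin 11 → ℝ) : ∑ i, ca i * y i = y 1 + y 2 + y 3 + y 4 + y 5 + y 6 + y 7 + y 8 +
    y 9 + y 10 - 10 * y 0 := by
  rw [sum11]
  change (-10 : ℝ) * y 0 + 1 * y 1 + 1 * y 2 + 1 * y 3 + 1 * y 4 + 1 * y 5 + 1 * y 6 + 1 * y 7 +
    1 * y 8 + 1 * y 9 + 1 * y 10 = _
  ring

theorem sum_cb (y : Fin 11 → ℝ) : ∑ i, cb i * y i = y 1 + y 2 + 2 * y 5 + 2 * y 6 +
    y 9 + y 10 - 8 * y 0 := by
  rw [sum11]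
  change (-8 : ℝ) * y 0 + 1 * y 1 + 1 * y 2 + 0 * y 3 + 0 * y 4 + 2 * y 5 + 2 * y 6 + 0 * y 7 +
    0 * y 8 + 1 * y 9 + 1 * y 10 = _
  ring

theorem ca_ly (G : FinGraph) [Nonempty (Q →g G.graph)] : ∑ i, ca i * ly G i = fa G.graph := by
  obtain ⟨h0, h1, h2, h3, h4, h5, h6, h7, h8, h9, h10⟩ := ly_vals G
  rw [sum_ca, h0, h1, h2, h3, h4, h5, h6, h7, h8, h9, h10]
  unfold fa
  ring

theorem cb_ly (G : FinGraph) [Nonempty (Q →g G.graph)] : ∑ i, cb i * ly G i = fb G.graph := by
  obtain ⟨h0, h1, h2, h3, h4, h5, h6, h7, h8, h9, h10⟩ := ly_vals G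
  rw [sum_cb, h0, h1, h2, h5, h6, h9, h10]
  unfold fb
  ring

/-- the Matus inequalities for the logarithms of the densities -/
theorem matus_dens (K : ℕ) (G : FinGraph) [Nonempty (Q →g G.graph)] :
    0 ≤ K * (∑ i, ca i * ly G i) - ly G 0 + (K * (K - 1) / 2) * ∑ i, cb i * ly G i := by
  rw [ca_ly, cb_ly, (ly_vals G).1]
  have : Fintype G.V := Fintype.ofFinite _
  have h := matus_hom G.graph K
  unfold fa fb
  rw [Nat.card_eq_fintype_card]
  linarith

/-- the inequalities hold on the tropicalization -/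
theorem matus_trop (K : ℕ) : ∀ y ∈ closure (coneHull (logSet (Real.exp 1) (profile fam))),
    0 ≤ K * (∑ i, ca i * y i) - y 0 + (K * (K - 1) / 2) * ∑ i, cb i * y i := by
  have key : ∀ y : Fin 11 → ℝ, ∑ i, (K * ca i - (if i = 0 then 1 else 0) +
      (K * (K - 1) / 2) * cb i) * y i =
      K * (∑ i, ca i * y i) - y 0 + (K * (K - 1) / 2) * ∑ i, cb i * y i := by
    intro y
    have e1 : ∑ i : Fin 11, (if i = 0 then (1 : ℝ) else 0) * y i = y 0 := by simp
    rw [Finset.mul_sum, Finset.mul_sum, ← e1, ← Finset.sum_sub_distrib, ← Finset.sum_add_distrib]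
    exact Finset.sum_congr rfl fun i _ => by ring
  intro y hy
  rw [← key]
  refine lin_nonneg fam _ ?_ y hy
  intro G hG
  have : Nonempty (Q →g G.graph) := (homDensity_pos_iff (fam 0) G).1 (hG 0)
  rw [key]
  exact matus_dens K G

/-- if the second functional is nonpositive at a point of the tropicalization, then the first is
nonnegative -/
theorem fa_nonneg (y : Fin 11 → ℝ)
    (hy : y ∈ closure (coneHull (logSet (Real.exp 1) (profile fam))))
    (hb : ∑ i, cb i * y i ≤ 0) : 0 ≤ ∑ i, ca i * y i := by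
  by_contra hcon
  push Not at hcon
  obtain ⟨K, hK⟩ := exists_nat_gt (max 1 ((-y 0) / (-(∑ i, ca i * y i))))
  have hK1 : (1 : ℝ) < K := lt_of_le_of_lt (le_max_left _ _) hK
  have hK2 : (-y 0) / (-(∑ i, ca i * y i)) < K := lt_of_le_of_lt (le_max_right _ _) hK
  rw [div_lt_iff₀ (by linarith)] at hK2
  have h := matus_trop K y hy
  have h2 : (K * (K - 1) / 2 : ℝ) * ∑ i, cb i * y i ≤ 0 :=
    mul_nonpos_of_nonneg_of_nonpos (by
      have : (0 : ℝ) ≤ K * (K - 1) := mul_nonneg (by linarith) (by linarith)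
      linarith) hb
  nlinarith

theorem log_mem (G : FinGraph) [Nonempty (Q →g G.graph)] :
    ly G ∈ logSet (Real.exp 1) (profile fam) := by
  refine ⟨fun i => homDensity (fam i) G, subset_closure ⟨G, rfl⟩,
    fun i => (homDensity_pos_iff _ _).2 inferInstance, fun i => ?_⟩
  rw [Real.logb, Real.log_exp, div_one]
  rfl

theorem cone_mem {s : ℕ} {S : Set (Fin s → ℝ)} {y : Fin s → ℝ} (hy : y ∈ S) :
    y ∈ closure (coneHull S) :=
  subset_closure ⟨1, fun _ => 1, fun _ => y, fun _ => zero_le_one, fun _ => hy, by simp⟩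

theorem not_polyhedral :
    ¬ IsPolyhedralCone (closure (coneHull (logSet (Real.exp 1) (profile fam)))) := by
  rintro ⟨r, a, hL⟩
  let lin : (Fin 11 → ℝ) → ((Fin 11 → ℝ) →ₗ[ℝ] ℝ) := fun c => ∑ i, c i • LinearMap.proj i
  have hlin : ∀ c y, lin c y = ∑ i, c i * y i := by
    intro c y
    simp [lin]
  obtain ⟨c, hc0, hc1⟩ := farkas (r + 1)
    (Fin.cons (-(lin cb)) (fun j => lin (a j)) : Fin (r + 1) → ((Fin 11 → ℝ) →ₗ[ℝ] ℝ)) (lin ca) (by
      intro y hy
      rw [hlin]
      refine fa_nonneg y ?_ ?_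
      · rw [hL]
        intro j
        have := hy j.succ
        rw [Fin.cons_succ, hlin] at this
        exact this
      · have := hy 0
        rw [Fin.cons_zero, LinearMap.neg_apply, hlin] at this
        linarith)
  obtain ⟨n, m, d, hne, hneg⟩ := fab_neg (c 0) (hc0 0)
  let G : FinGraph := ⟨Fin 13 × Finset (Fin n), inferInstance, inferInstance, TG n m d⟩
  have : Nonempty (Q →g G.graph) := hne
  have hG : ly G ∈ closure (coneHull (logSet (Real.exp 1) (profile fam))) := cone_mem (log_mem G)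
  have h1 := hc1 (ly G)
  rw [hlin, ca_ly, Fin.sum_univ_succ, Fin.cons_zero, LinearMap.neg_apply, hlin, cb_ly] at h1
  have h2 : 0 ≤ ∑ j : Fin r, c j.succ * (Fin.cons (-(lin cb)) (fun j => lin (a j)) :
      Fin (r + 1) → ((Fin 11 → ℝ) →ₗ[ℝ] ℝ)) j.succ (ly G) := by
    refine Finset.sum_nonneg fun j _ => mul_nonneg (hc0 _) ?_
    rw [Fin.cons_succ, hlin]
    rw [hL] at hG
    exact hG j
  have h3 : fa G.graph + c 0 * fb G.graph < 0 := hneg
  linarith

/-- the main theorem -/
theorem main : ∃ C : Fin 11 → FinGraph,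
    (∀ i, (C i).graph.Connected) ∧
    (Pairwise fun i j => IsEmpty ((C i).graph ≃g (C j).graph)) ∧
    ∃ L : Set (Fin 11 → ℝ), IsTrop (profile C) L ∧ (∀ L', IsTrop (profile C) L' → L' = L) ∧
      L = closure (coneHull (logSet (Real.exp 1) (profile C))) ∧ ¬ IsPolyhedralCone L := by
  refine ⟨fam, fam_conn, fam_noniso, _, ?_, ?_, rfl, not_polyhedral⟩
  · have : Nonempty (Q →g gQ.graph) := ⟨SimpleGraph.Hom.id⟩
    exact isTrop_cone (profile_mul fam) ⟨_, log_mem gQ⟩
  · intro L' hL'
    have : Nonempty (Q →g gQ.graph) := ⟨SimpleGraph.Hom.id⟩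
    exact pk_unique hL' (isTrop_cone (profile_mul fam) ⟨_, log_mem gQ⟩)

end Pool.Agent.W5h51.TP
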