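import Mathlib
set_option autoImplicit false

/-! The type graph: a graph on 13 vertices whose only endomorphism is the identity. -/

namespace Pool.Agent.W5h51.TP

/-- adjacency masks -/
def mask : Fin 13 → ℕ :=
  ![2^1+2^2+2^3+2^5+2^7+2^8+2^9,
    2^0+2^2+2^3+2^5+2^7,
    2^0+2^1+2^4+2^5+2^8+2^9+2^11,
    2^0+2^1+2^4+2^7+2^8+2^10,
    2^2+2^3+2^5+2^6+2^8+2^10+2^11,
    2^0+2^1+2^2+2^4+2^6+2^7+2^11,
    2^4+2^5+2^7+2^8+2^12,
    2^0+2^1+2^3+2^5+2^6+2^10+2^12,
    2^0+2^2+2^3+2^4+2^6+2^9+2^12,
    2^0+2^2+2^8+2^10+2^11+2^12,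
    2^3+2^4+2^7+2^9+2^11+2^12,
    2^2+2^4+2^5+2^9+2^10+2^12,
    2^6+2^7+2^8+2^9+2^10+2^11]

/-- adjacency as a boolean -/
def adjB (i j : Fin 13) : Bool := (mask i).testBit j

theorem adjB_symm : ∀ i j, adjB i j = adjB j i := by decide +kernel
theorem adjB_irr : ∀ i, adjB i i = false := by decide +kernel

/-- the type graph -/
def Q : SimpleGraph (Fin 13) where
  Adj i j := adjB i j = true
  symm := ⟨fun i j h => by rw [adjB_symm]; exact h⟩
  loopless := ⟨fun i h => by rw [adjB_irr] at h; exact Bool.false_ne_true h⟩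

instance : DecidableRel Q.Adj := fun i j => inferInstanceAs (Decidable (adjB i j = true))

set_option synthInstance.maxSize 4000 in
set_option maxRecDepth 100000 in
theorem rigid_core : ∀ x0 x1 : Fin 13, adjB x0 x1 = true →
    ∀ x2 : Fin 13, (adjB x0 x2 && adjB x1 x2) = true →
    ∀ x5 : Fin 13, (adjB x0 x5 && (adjB x1 x5 && adjB x2 x5)) = true →
    ∀ x7 : Fin 13, (adjB x0 x7 && (adjB x1 x7 && adjB x5 x7)) = true →
    ∀ x3 : Fin 13, (adjB x0 x3 && (adjB x1 x3 && adjB x7 x3)) = true →
    ∀ x4 : Fin 13, (adjB x2 x4 && (adjB x3 x4 && adjB x5 x4)) = true →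
    ∀ x8 : Fin 13, (adjB x0 x8 && (adjB x2 x8 && (adjB x3 x8 && adjB x4 x8))) = true →
    ∀ x6 : Fin 13, (adjB x4 x6 && (adjB x5 x6 && (adjB x7 x6 && adjB x8 x6))) = true →
    (x0 = 0 ∧ x1 = 1 ∧ x2 = 2 ∧ x3 = 3 ∧ x4 = 4 ∧ x5 = 5 ∧ x6 = 6 ∧ x7 = 7 ∧ x8 = 8) := by
  decide +kernel

theorem rigid_type : ∀ x : Fin 13,
    (adjB 0 x = true → adjB 2 x = true → adjB 8 x = true → x = 9) ∧
    (adjB 3 x = true → adjB 4 x = true → adjB 7 x = true → x = 10) ∧
    (adjB 2 x = true → adjB 4 x = true → adjB 5 x = true → x = 11) ∧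
    (adjB 6 x = true → adjB 7 x = true → adjB 8 x = true → x = 12) := by
  decide +kernel

/-- every partial endomorphism of the type graph defined on the core and some types is the
inclusion -/
theorem rigid (S : Set (Fin 13)) (hS : ∀ i : Fin 13, i.val < 9 → i ∈ S) (f : Fin 13 → Fin 13)
    (hf : ∀ u ∈ S, ∀ v ∈ S, adjB u v = true → adjB (f u) (f v) = true) :
    ∀ v ∈ S, f v = v := by
  have g : ∀ u v : Fin 13, u.val < 9 → v.val < 9 → adjB u v = true → adjB (f u) (f v) = true :=
    fun u v hu hv h => hf u (hS u hu) v (hS v hv) h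
  have c := rigid_core (f 0) (f 1) (g 0 1 (by decide) (by decide) (by decide +kernel))
    (f 2) (by
      rw [g 0 2 (by decide) (by decide) (by decide +kernel),
        g 1 2 (by decide) (by decide) (by decide +kernel)]; rfl)
    (f 5) (by
      rw [g 0 5 (by decide) (by decide) (by decide +kernel),
        g 1 5 (by decide) (by decide) (by decide +kernel),
        g 2 5 (by decide) (by decide) (by decide +kernel)]; rfl)
    (f 7) (by
      rw [g 0 7 (by decide) (by decide) (by decide +kernel),
        g 1 7 (by decide) (by decide) (by decide +kernel),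
        g 5 7 (by decide) (by decide) (by decide +kernel)]; rfl)
    (f 3) (by
      rw [g 0 3 (by decide) (by decide) (by decide +kernel),
        g 1 3 (by decide) (by decide) (by decide +kernel),
        g 7 3 (by decide) (by decide) (by decide +kernel)]; rfl)
    (f 4) (by
      rw [g 2 4 (by decide) (by decide) (by decide +kernel),
        g 3 4 (by decide) (by decide) (by decide +kernel),
        g 5 4 (by decide) (by decide) (by decide +kernel)]; rfl)
    (f 8) (by
      rw [g 0 8 (by decide) (by decide) (by decide +kernel),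
        g 2 8 (by decide) (by decide) (by decide +kernel),
        g 3 8 (by decide) (by decide) (by decide +kernel),
        g 4 8 (by decide) (by decide) (by decide +kernel)]; rfl)
    (f 6) (by
      rw [g 4 6 (by decide) (by decide) (by decide +kernel),
        g 5 6 (by decide) (by decide) (by decide +kernel),
        g 7 6 (by decide) (by decide) (by decide +kernel),
        g 8 6 (by decide) (by decide) (by decide +kernel)]; rfl)
  obtain ⟨c0, c1, c2, c3, c4, c5, c6, c7, c8⟩ := c
  have k : ∀ u : Fin 13, u.val < 9 → ∀ v ∈ S, adjB u v = true → adjB (f u) (f v) = true :=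
    fun u hu v hv h => hf u (hS u hu) v hv h
  intro v hv
  have t := rigid_type (f v)
  fin_cases v
  · exact c0
  · exact c1
  · exact c2
  · exact c3
  · exact c4
  · exact c5
  · exact c6
  · exact c7
  · exact c8
  · refine t.1 ?_ ?_ ?_
    · have := k 0 (by decide) _ hv (by decide +kernel)
      rwa [c0] at this
    · have := k 2 (by decide) _ hv (by decide +kernel)
      rwa [c2] at this
    · have := k 8 (by decide) _ hv (by decide +kernel)
      rwa [c8] at this
  · refine t.2.1 ?_ ?_ ?_
    · have := k 3 (by decide) _ hv (by decide +kernel)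
      rwa [c3] at this
    · have := k 4 (by decide) _ hv (by decide +kernel)
      rwa [c4] at this
    · have := k 7 (by decide) _ hv (by decide +kernel)
      rwa [c7] at this
  · refine t.2.2.1 ?_ ?_ ?_
    · have := k 2 (by decide) _ hv (by decide +kernel)
      rwa [c2] at this
    · have := k 4 (by decide) _ hv (by decide +kernel)
      rwa [c4] at this
    · have := k 5 (by decide) _ hv (by decide +kernel)
      rwa [c5] at this
  · refine t.2.2.2 ?_ ?_ ?_
    · have := k 6 (by decide) _ hv (by decide +kernel)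
      rwa [c6] at this
    · have := k 7 (by decide) _ hv (by decide +kernel)
      rwa [c7] at this
    · have := k 8 (by decide) _ hv (by decide +kernel)
      rwa [c8] at this

end Pool.Agent.W5h51.TP
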