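import Pool.Agent.W5h51.TP.Mat
import Pool.Agent.W5h51.TP.Pat
set_option autoImplicit false

/-! Homomorphisms from the patterns and entropies. -/

open scoped Classical

namespace Pool.Agent.W5h51.TP

open H137.PFR H137.PFR.BSG

/-- the core and the types in `S` -/
def cs (S : Finset (Fin 13)) : Finset (Fin 13) := {0, 1, 2, 3, 4, 5, 6, 7, 8} ∪ S

/-- the pattern on the core and the types in `S` -/
def PG (S : Finset (Fin 13)) : SimpleGraph {i : Fin 13 // i ∈ cs S} := Q.comap (fun i => i.1)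

/-- two copies of the type graph glued along the core and the types in `S` -/
def GG (S : Finset (Fin 13)) : SimpleGraph {p : Fin 13 × Bool // p.2 = true → p.1 ∉ cs S} where
  Adj p q := Q.Adj p.1.1 q.1.1 ∧ (p.1.2 = q.1.2 ∨ p.1.1 ∈ cs S ∨ q.1.1 ∈ cs S)
  symm := ⟨fun p q h => ⟨h.1.symm, by
    rcases h.2 with h | h | h
    · exact Or.inl h.symm
    · exact Or.inr (Or.inr h)
    · exact Or.inr (Or.inl h)⟩⟩
  loopless := ⟨fun p h => Q.loopless.irrefl _ h.1⟩

instance finHom {V β : Type} [Finite V] [Finite β] (P : SimpleGraph V) (G : SimpleGraph β) :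
    Finite (P →g G) := Finite.of_injective (fun f => (f : V → β)) DFunLike.coe_injective

noncomputable instance ftHom {V β : Type} [Finite V] [Finite β] (P : SimpleGraph V)
    (G : SimpleGraph β) : Fintype (P →g G) := Fintype.ofFinite _

section

variable {β : Type} [Fintype β] (G : SimpleGraph β)

/-- coordinates of a homomorphism -/
def Xc (i : Fin 13) (f : Q →g G) : β := f i

theorem card_pos_of_nonempty {V : Type} [Finite V] (P : SimpleGraph V) [Nonempty (P →g G)] :
    (0 : ℝ) < Nat.card (P →g G) := by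
  exact_mod_cast Nat.card_pos

/-- restriction of a homomorphism -/
def restr (S : Finset (Fin 13)) (f : Q →g G) : PG S →g G where
  toFun i := f i.1
  map_rel' := fun h => f.map_rel' h

theorem hs_le (S : Finset (Fin 13)) [Nonempty (Q →g G)] :
    hs (unifw (Q →g G)) (Xc G) (cs S) ≤ Real.log (Nat.card (PG S →g G)) := by
  have h1 : hs (unifw (Q →g G)) (Xc G) (cs S) = H (unifw (Q →g G)) (restr G S) := by
    refine hs_congr _ _ _ _ fun f f' => ?_
    constructor
    · intro h
      exact RelHom.ext fun i => h i.1 i.2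
    · intro h i hi
      exact congrArg (fun g : PG S →g G => g ⟨i, hi⟩) h
  rw [h1, Nat.card_eq_fintype_card]
  exact H_le_log_card law_unifw _

/-- gluing two homomorphisms -/
noncomputable def glue (S : Finset (Fin 13)) (q : (Q →g G) × (Q →g G))
    (hq : ∀ i ∈ cs S, q.1 i = q.2 i) : GG S →g G where
  toFun p := if p.1.2 = true then q.2 p.1.1 else q.1 p.1.1
  map_rel' := by
    rintro ⟨⟨i, b⟩, hb⟩ ⟨⟨j, c⟩, hc⟩ ⟨h1, h2⟩
    simp only at h1 h2 hb hc ⊢
    cases b <;> cases c
    · simpa using q.1.map_rel' h1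
    · simp only [Bool.false_eq_true, if_false, if_true]
      have hi : i ∈ cs S := by
        rcases h2 with h | h | h
        · exact absurd h Bool.false_ne_true
        · exact h
        · exact absurd h (hc rfl)
      rw [hq i hi]
      exact q.2.map_rel' h1
    · simp only [Bool.false_eq_true, if_false, if_true]
      have hj : j ∈ cs S := by
        rcases h2 with h | h | h
        · exact absurd h.symm Bool.false_ne_true
        · exact absurd h (hb rfl)
        · exact h
      rw [hq j hj]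
      exact q.2.map_rel' h1
    · simpa using q.2.map_rel' h1

/-- homomorphisms of the glued pattern are pairs of homomorphisms agreeing on the common part -/
theorem card_glue (S : Finset (Fin 13)) : Nat.card (GG S →g G) =
    Nat.card {q : (Q →g G) × (Q →g G) // ∀ i ∈ cs S, q.1 i = q.2 i} := by
  refine (Nat.card_congr (Equiv.ofBijective
    (fun q : {q : (Q →g G) × (Q →g G) // ∀ i ∈ cs S, q.1 i = q.2 i} => glue G S q.1 q.2)
    ⟨?_, ?_⟩)).symm
  · rintro ⟨⟨f, g⟩, h⟩ ⟨⟨f', g'⟩, h'⟩ e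
    have e0 : ∀ p, glue G S (f, g) h p = glue G S (f', g') h' p := fun p => by
      have := congrArg (fun φ : GG S →g G => φ p) e
      exact this
    have e1 : f = f' := by
      refine RelHom.ext fun i => ?_
      have := e0 ⟨(i, false), fun h => absurd h Bool.false_ne_true⟩
      simpa [glue] using this
    have e2 : g = g' := by
      refine RelHom.ext fun i => ?_
      by_cases hi : i ∈ cs S
      · rw [← h i hi, ← h' i hi]
        exact congrArg (fun g : Q →g G => g i) e1
      · have := e0 ⟨(i, true), fun _ => hi⟩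
        simpa [glue] using this
    subst e1 e2
    rfl
  · intro φ
    let f : Q →g G := ⟨fun i => φ ⟨(i, false), fun h => absurd h Bool.false_ne_true⟩, fun {i j} h =>
      φ.map_rel' ⟨h, Or.inl rfl⟩⟩
    let s : Fin 13 → {p : Fin 13 × Bool // p.2 = true → p.1 ∉ cs S} := fun i =>
      if hi : i ∈ cs S then ⟨(i, false), fun h => absurd h Bool.false_ne_true⟩ else ⟨(i, true), fun _ => hi⟩
    have s1 : ∀ i (hi : i ∈ cs S), s i = ⟨(i, false), fun h => absurd h Bool.false_ne_true⟩ :=
      fun i hi => dif_pos hi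
    have s2 : ∀ i (hi : i ∉ cs S), s i = ⟨(i, true), fun _ => hi⟩ := fun i hi => dif_neg hi
    let g : Q →g G := ⟨fun i => φ (s i), fun {i j} h => by
      refine φ.map_rel' ?_
      by_cases hi : i ∈ cs S <;> by_cases hj : j ∈ cs S
      · rw [s1 i hi, s1 j hj]
        exact ⟨h, Or.inl rfl⟩
      · rw [s1 i hi, s2 j hj]
        exact ⟨h, Or.inr (Or.inl hi)⟩
      · rw [s2 i hi, s1 j hj]
        exact ⟨h, Or.inr (Or.inr hj)⟩
      · rw [s2 i hi, s2 j hj]
        exact ⟨h, Or.inl rfl⟩⟩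
    have hfg : ∀ i ∈ cs S, f i = g i := by
      intro i hi
      change φ _ = φ (s i)
      rw [s1 i hi]
    refine ⟨⟨(f, g), hfg⟩, ?_⟩
    refine RelHom.ext ?_
    rintro ⟨⟨i, b⟩, hb⟩
    cases b
    · exact if_neg (c := false = true) (t := g i) (e := f i) Bool.false_ne_true
    · refine (if_pos (c := true = true) (t := g i) (e := f i) rfl).trans ?_
      change φ (s i) = _
      rw [s2 i (hb rfl)]

theorem hs_ge (S : Finset (Fin 13)) [Nonempty (Q →g G)] :
    2 * Real.log (Nat.card (Q →g G)) - Real.log (Nat.card (GG S →g G)) ≤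
      hs (unifw (Q →g G)) (Xc G) (cs S) := by
  rw [card_glue]
  exact hs_ge_coll (Xc G) (cs S)

theorem hs_univ [Nonempty (Q →g G)] :
    Real.log (Nat.card (Q →g G)) ≤ hs (unifw (Q →g G)) (Xc G) Finset.univ := by
  have h := hs_ge_coll (Ω := (Q →g G)) (Xc G) Finset.univ
  have h2 : Nat.card {q : (Q →g G) × (Q →g G) // ∀ i ∈ Finset.univ, Xc G i q.1 = Xc G i q.2} =
      Nat.card (Q →g G) := by
    refine Nat.card_congr (Equiv.ofBijective (fun q => q.1.1) ⟨?_, ?_⟩)
    · rintro ⟨⟨f, g⟩, h⟩ ⟨⟨f', g'⟩, h'⟩ e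
      have e1 : f = f' := e
      have e2 : f = g := RelHom.ext fun i => h i (Finset.mem_univ i)
      have e3 : f' = g' := RelHom.ext fun i => h' i (Finset.mem_univ i)
      subst e1 e2 e3
      rfl
    · intro f
      exact ⟨⟨(f, f), fun _ _ => rfl⟩, rfl⟩
  rw [h2] at h
  linarith

/-- restriction of a homomorphism to a set of coordinates -/
def Rs (S : Finset (Fin 13)) (f : Q →g G) (i : {i // i ∈ S}) : β := f i.1

omit [Fintype β] in
theorem Rs_eq (S : Finset (Fin 13)) (f f' : Q →g G) :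
    Rs G S f = Rs G S f' ↔ ∀ i ∈ S, Xc G i f = Xc G i f' := by
  constructor
  · intro h i hi
    exact congrFun h ⟨i, hi⟩
  · intro h
    exact funext fun i => h i.1 i.2

theorem cs_iff (P : Fin 13 → Prop) (S : Finset (Fin 13)) :
    (∀ i ∈ cs S, P i) ↔ (∀ i ∈ cs ∅, P i) ∧ ∀ i ∈ S, P i := by
  unfold cs
  simp only [Finset.mem_union, Finset.union_empty]
  constructor
  · exact fun h => ⟨fun i hi => h i (Or.inl hi), fun i hi => h i (Or.inr hi)⟩
  · exact fun h i hi => hi.elim (h.1 i) (h.2 i)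

theorem matus_ent {w : (Q →g G) → ℝ} (hw : Law w) (K : ℕ) (h : Finset (Fin 13) → ℝ)
    (hh : ∀ S, h S = hs w (Xc G) (cs S)) :
    0 ≤ K * (h {9, 11} + h {9, 12} + h {10, 11} + h {10, 12} + h {11, 12} - h {9, 11, 12}
      - h {10, 11, 12} - h {9, 10} - h {11} - h {12}) +
      (h {11} + h {12} - h {11, 12} - h ∅) +
      (K * (K - 1) / 2) * (h {9, 11} + h {9, 12} + 2 * h {11, 12} - 2 * h {9, 11, 12} - h {11}
        - h {12}) := by
  have e : ∀ {ξ : Type} [Fintype ξ] (S : Finset (Fin 13)) (Y : (Q →g G) → ξ),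
      (∀ f f', ((∀ i ∈ cs ∅, Xc G i f = Xc G i f') ∧ ∀ i ∈ S, Xc G i f = Xc G i f') ↔
        Y f = Y f') → h S = H w Y := by
    intro ξ _ S Y hY
    rw [hh]
    refine hs_congr w _ _ _ fun f f' => ?_
    rw [cs_iff]
    exact hY f f'
  have r : ∀ S f f', Rs G (cs S) f = Rs G (cs S) f' ↔
      ((∀ i ∈ cs ∅, Xc G i f = Xc G i f') ∧ ∀ i ∈ S, Xc G i f = Xc G i f') := by
    intro S f f'
    rw [Rs_eq, cs_iff]
  have hI := iter K (Q →g G) ({i // i ∈ cs ∅} → β) w hw (Rs G (cs {9})) (Rs G (cs {10}))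
    (Rs G (cs {11})) (Rs G (cs {12})) (Rs G (cs ∅)) 0
  unfold MI Ing at hI
  have t0 := e ∅ (Rs G (cs ∅)) (by intro f f'; rw [r])
  have tc := e {11} (Rs G (cs {11})) (by intro f f'; rw [r])
  have td := e {12} (Rs G (cs {12})) (by intro f f'; rw [r])
  have tc0 := e {11} (fun f => (Rs G (cs {11}) f, Rs G (cs ∅) f)) (by
    intro f f'; rw [Prod.mk.injEq, r, r]; simp; try tauto)
  have td0 := e {12} (fun f => (Rs G (cs {12}) f, Rs G (cs ∅) f)) (by
    intro f f'; rw [Prod.mk.injEq, r, r]; simp; try tauto)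
  have t0c := e {11} (fun f => (Rs G (cs ∅) f, Rs G (cs {11}) f)) (by
    intro f f'; rw [Prod.mk.injEq, r, r]; simp; try tauto)
  have t0d := e {12} (fun f => (Rs G (cs ∅) f, Rs G (cs {12}) f)) (by
    intro f f'; rw [Prod.mk.injEq, r, r]; simp; try tauto)
  have tac := e {9, 11} (fun f => (Rs G (cs {9}) f, Rs G (cs {11}) f)) (by
    intro f f'; rw [Prod.mk.injEq, r, r]; simp; tauto)
  have tad := e {9, 12} (fun f => (Rs G (cs {9}) f, Rs G (cs {12}) f)) (by
    intro f f'; rw [Prod.mk.injEq, r, r]; simp; tauto)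
  have tbc := e {10, 11} (fun f => (Rs G (cs {10}) f, Rs G (cs {11}) f)) (by
    intro f f'; rw [Prod.mk.injEq, r, r]; simp; tauto)
  have tbd := e {10, 12} (fun f => (Rs G (cs {10}) f, Rs G (cs {12}) f)) (by
    intro f f'; rw [Prod.mk.injEq, r, r]; simp; tauto)
  have tcd := e {11, 12} (fun f => (Rs G (cs {11}) f, Rs G (cs {12}) f)) (by
    intro f f'; rw [Prod.mk.injEq, r, r]; simp; tauto)
  have tdc := e {11, 12} (fun f => (Rs G (cs {12}) f, Rs G (cs {11}) f)) (by
    intro f f'; rw [Prod.mk.injEq, r, r]; simp; tauto)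
  have tab := e {9, 10} (fun f => (Rs G (cs {9}) f, Rs G (cs {10}) f)) (by
    intro f f'; rw [Prod.mk.injEq, r, r]; simp; tauto)
  have tacd := e {9, 11, 12} (fun f => (Rs G (cs {9}) f, Rs G (cs {11}) f, Rs G (cs {12}) f)) (by
    intro f f'; rw [Prod.mk.injEq, Prod.mk.injEq, r, r, r]; simp; tauto)
  have tadc := e {9, 11, 12} (fun f => (Rs G (cs {9}) f, Rs G (cs {12}) f, Rs G (cs {11}) f)) (by
    intro f f'; rw [Prod.mk.injEq, Prod.mk.injEq, r, r, r]; simp; tauto)
  have tbcd := e {10, 11, 12} (fun f => (Rs G (cs {10}) f, Rs G (cs {11}) f, Rs G (cs {12}) f))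
    (by intro f f'; rw [Prod.mk.injEq, Prod.mk.injEq, r, r, r]; simp; tauto)
  have t0cd := e {11, 12} (fun f => (Rs G (cs ∅) f, Rs G (cs {11}) f, Rs G (cs {12}) f))
    (by intro f f'; rw [Prod.mk.injEq, Prod.mk.injEq, r, r, r]; simp; tauto)
  have t0dc := e {11, 12} (fun f => (Rs G (cs ∅) f, Rs G (cs {12}) f, Rs G (cs {11}) f))
    (by intro f f'; rw [Prod.mk.injEq, Prod.mk.injEq, r, r, r]; simp; tauto)
  have tcd0 := e {11, 12} (fun f => (Rs G (cs {11}) f, Rs G (cs {12}) f, Rs G (cs ∅) f))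
    (by intro f f'; rw [Prod.mk.injEq, Prod.mk.injEq, r, r, r]; simp; tauto)
  have tabcd := e {9, 10, 11, 12} (fun f => ((Rs G (cs {9}) f, Rs G (cs {10}) f),
    (Rs G (cs {11}) f, Rs G (cs {12}) f)))
    (by intro f f'; rw [Prod.mk.injEq, Prod.mk.injEq, Prod.mk.injEq, r, r, r, r]; simp; tauto)
  have t0abcd := e {9, 10, 11, 12} (fun f => (Rs G (cs ∅) f, (Rs G (cs {9}) f, Rs G (cs {10}) f),
    (Rs G (cs {11}) f, Rs G (cs {12}) f)))
    (by
      intro f f'
      rw [Prod.mk.injEq, Prod.mk.injEq, Prod.mk.injEq, Prod.mk.injEq, r, r, r, r, r]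
      simp; tauto)
  have t0cd' := e {11, 12} (fun f => (Rs G (cs ∅) f, (Rs G (cs {11}) f, Rs G (cs {12}) f)))
    (by intro f f'; rw [Prod.mk.injEq, Prod.mk.injEq, r, r, r]; simp; tauto)
  have h' := hI (by linarith) (by linarith) (by linarith)
  rw [← tac, ← tad, ← tbc, ← tbd, ← tcd, ← tacd, ← tbcd, ← tab, ← tc, ← td, ← tc0, ← td0, ← tcd0,
    ← t0, ← tdc, ← tadc] at h'
  have e2 : (K : ℝ) * 0 = 0 := mul_zero _
  rw [e2, zero_add] at h'
  refine h'.trans (le_of_eq ?_)
  ring

/-- logarithms of the numbers of homomorphisms -/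
noncomputable def lp (S : Finset (Fin 13)) : ℝ := Real.log (Nat.card (PG S →g G))
/-- logarithms of the numbers of homomorphisms -/
noncomputable def lg (S : Finset (Fin 13)) : ℝ := Real.log (Nat.card (GG S →g G))
/-- logarithm of the number of homomorphisms of the type graph -/
noncomputable def lv : ℝ := Real.log (Nat.card (Q →g G))

/-- the Matus inequalities for numbers of homomorphisms -/
theorem matus_hom [Nonempty (Q →g G)] (K : ℕ) :
    0 ≤ K * (lp G {9, 11} + lp G {9, 12} + lp G {10, 11} + lp G {10, 12} + lp G {11, 12}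
        + lg G {9, 11, 12} + lg G {10, 11, 12} + lg G {9, 10} + lg G {11} + lg G {12}
        - 10 * lv G) + (13 * Real.log (Fintype.card β) - lv G) +
      (K * (K - 1) / 2) * (lp G {9, 11} + lp G {9, 12} + 2 * lp G {11, 12}
        + 2 * lg G {9, 11, 12} + lg G {11} + lg G {12} - 8 * lv G) := by
  have hw := law_unifw (Ω := (Q →g G))
  have h := matus_ent G hw K (fun S => hs (unifw (Q →g G)) (Xc G) (cs S)) (fun S => rfl)
  have p1 := fun S => hs_le G S
  have p2 := fun S => hs_ge G S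
  have a1 := hs_insert hw (Xc G) (cs ∅) (cs {11}) 11 (by decide)
  have a2 := hs_card hw (Xc G) (cs {12})
  have a3 := hs_insert hw (Xc G) (cs {11, 12}) (cs {10, 11, 12}) 10 (by decide)
  have a4 := hs_insert hw (Xc G) (cs {10, 11, 12}) Finset.univ 9 (by decide)
  have a5 := hs_univ G
  have c1 : (cs {12}).card = 10 := by decide
  rw [c1] at a2
  push_cast at a2
  have hK : (0 : ℝ) ≤ K := Nat.cast_nonneg K
  have hK2 : (0 : ℝ) ≤ K * (K - 1) / 2 := by
    rcases Nat.eq_zero_or_pos K with h0 | h0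
    · subst h0; simp
    · have : (1 : ℝ) ≤ K := by exact_mod_cast h0
      have : (0 : ℝ) ≤ K * (K - 1) := mul_nonneg hK (by linarith)
      linarith
  refine h.trans (add_le_add (add_le_add (mul_le_mul_of_nonneg_left ?_ hK) ?_)
    (mul_le_mul_of_nonneg_left ?_ hK2))
  · have := p1 {9, 11}
    have := p1 {9, 12}
    have := p1 {10, 11}
    have := p1 {10, 12}
    have := p1 {11, 12}
    have := p2 {9, 11, 12}
    have := p2 {10, 11, 12}
    have := p2 {9, 10}
    have := p2 {11}
    have := p2 {12}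
    unfold lp lg lv
    linarith
  · unfold lv
    linarith
  · have := p1 {9, 11}
    have := p1 {9, 12}
    have := p1 {11, 12}
    have := p2 {9, 11, 12}
    have := p2 {11}
    have := p2 {12}
    unfold lp lg lv
    linarith

end

end Pool.Agent.W5h51.TP
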