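import Pool.Agent.W5h51.TP.Ent
set_option autoImplicit false

/-! Infinitely many information inequalities (Matus), with conditionally independent copies. -/

open scoped Classical

namespace Pool.Agent.W5h51.TP

open H137.PFR H137.PFR.BSG

section setfun

variable {Ω ι τ : Type*} [Fintype Ω] [Fintype ι] [Fintype τ]

/-- entropy of a subfamily -/
noncomputable def hs (w : Ω → ℝ) (X : ι → Ω → τ) (S : Finset ι) : ℝ :=
  H w (fun ω => fun i : ι => if i ∈ S then some (X i ω) else none)

omit [Fintype Ω] [Fintype ι] [Fintype τ] in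
theorem hs_ker (X : ι → Ω → τ) (S : Finset ι) (ω ω' : Ω) :
    ((fun i : ι => if i ∈ S then some (X i ω) else none) =
      (fun i : ι => if i ∈ S then some (X i ω') else none)) ↔ ∀ i ∈ S, X i ω = X i ω' := by
  constructor
  · intro h i hi
    have := congrFun h i
    simpa [hi] using this
  · intro h
    funext i
    by_cases hi : i ∈ S
    · simp [hi, h i hi]
    · simp [hi]

theorem hs_submod {w : Ω → ℝ} (hw : Law w) (X : ι → Ω → τ) (S T : Finset ι) :
    hs w X (S ∪ T) + hs w X (S ∩ T) ≤ hs w X S + hs w X T := by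
  unfold hs
  refine H_submod_ker hw _ _ _ _ (fun ω ω' h => ?_) (fun ω ω' h => ?_) (fun ω ω' h => ?_)
  · rw [hs_ker] at h ⊢
    rw [hs_ker] at h
    intro i hi
    rcases Finset.mem_union.1 hi with h1 | h1
    · exact h.1 i h1
    · exact h.2 i h1
  · rw [hs_ker] at h ⊢
    exact fun i hi => h i (Finset.mem_inter.1 hi).1
  · rw [hs_ker] at h ⊢
    exact fun i hi => h i (Finset.mem_inter.1 hi).2

theorem hs_congr {ξ : Type*} [Fintype ξ] (w : Ω → ℝ) (X : ι → Ω → τ) (S : Finset ι) (Y : Ω → ξ)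
    (h : ∀ o o', (∀ i ∈ S, X i o = X i o') ↔ Y o = Y o') : hs w X S = H w Y := by
  refine H_congr w _ _ fun o o' => ?_
  rw [hs_ker]
  exact h o o'

theorem hs_le_H {ξ : Type*} [Fintype ξ] {w : Ω → ℝ} (hw : Law w) (X : ι → Ω → τ) (S : Finset ι)
    (Y : Ω → ξ) (h : ∀ o o', Y o = Y o' → ∀ i ∈ S, X i o = X i o') : hs w X S ≤ H w Y := by
  refine H_le_of_ker hw _ _ fun o o' h1 => ?_
  rw [hs_ker]
  exact h o o' h1

omit [Fintype ι] [Fintype τ] in
theorem coll_nat {ξ : Type*} (X : Ω → ξ) : coll X = Nat.card {q : Ω × Ω // X q.1 = X q.2} := by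
  unfold coll
  rw [Nat.card_eq_fintype_card]

theorem hs_ge_coll [Nonempty Ω] (X : ι → Ω → τ) (S : Finset ι) :
    2 * Real.log (Nat.card Ω) - Real.log
      (Nat.card {q : Ω × Ω // ∀ i ∈ S, X i q.1 = X i q.2}) ≤ hs (unifw Ω) X S := by
  have h := H_ge_coll (Ω := Ω) (fun f : Ω => fun i : ι =>
    if i ∈ S then some (X i f) else none)
  have h2 : coll (fun f : Ω => fun i : ι =>
    if i ∈ S then some (X i f) else none) =
      Nat.card {q : Ω × Ω // ∀ i ∈ S, X i q.1 = X i q.2} :=
    (coll_nat _).trans (Nat.card_congr (Equiv.subtypeEquivRight fun q => hs_ker X S q.1 q.2))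
  rw [h2] at h
  rw [Nat.card_eq_fintype_card (α := Ω)]
  exact h

theorem hs_insert {w : Ω → ℝ} (hw : Law w) (X : ι → Ω → τ) (S T : Finset ι)
    (i : ι) (hT : ∀ j ∈ T, j = i ∨ j ∈ S) : hs w X T ≤ hs w X S + Real.log (Fintype.card τ) := by
  have h1 := H_subadd hw (fun f : Ω => fun i : ι =>
    if i ∈ S then some (X i f) else none) (X i)
  have h2 := H_le_log_card hw (X i)
  have h3 : hs w X T ≤ H w (fun f => ((fun f : Ω => fun i : ι =>
    if i ∈ S then some (X i f) else none) f, X i f)) := by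
    refine hs_le_H hw _ _ _ fun f f' h => ?_
    have h4 := Prod.ext_iff.1 h
    intro j hj
    rcases hT j hj with h5 | h5
    · subst h5
      exact h4.2
    · exact (hs_ker X S f f').1 h4.1 j h5
  exact h3.trans (h1.trans (add_le_add le_rfl h2))

theorem hs_card {w : Ω → ℝ} (hw : Law w) (X : ι → Ω → τ) (S : Finset ι) :
    hs w X S ≤ S.card * Real.log (Fintype.card τ) := by
  induction S using Finset.induction_on with
  | empty =>
    have : hs w X ∅ = 0 := by
      rw [← H_unit hw]
      exact hs_congr w X ∅ _ fun f f' => by simp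
    rw [this]
    simp
  | insert i S hi ih =>
    have := hs_insert hw X S (insert i S) i (fun j hj => Finset.mem_insert.1 hj)
    rw [Finset.card_insert_of_notMem hi]
    push_cast
    linarith

end setfun

/-- the linear programming part of one step; indices: A = 0, B = 1, C = 2, D = 3, W = 4 -/
theorem step_lp (e : Finset (Fin 5) → ℝ) (he : ∀ S T, e (S ∪ T) + e (S ∩ T) ≤ e S + e T)
    (h0 : e {0, 1, 2, 3, 4} + e {2, 3} = e {2, 3, 4} + e {0, 1, 2, 3}) :
    0 ≤ (e {0, 2} + e {0, 3} + e {1, 2} + e {1, 3} + e {2, 3} - e {0, 2, 3} - e {1, 2, 3}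
        - e {0, 1} - e {2} - e {3})
      + (e {2, 4} + e {3, 4} - e {2, 3, 4} - e {4})
      - (e {0, 2, 4} + e {0, 3, 4} - e {0, 2, 3, 4} - e {0, 4})
      + (e {3, 4} + e {2, 3} - e {2, 3, 4} - e {3})
      + (e {2, 4} + e {2, 3} - e {2, 3, 4} - e {2}) := by
  have f : ∀ S T U V : Finset (Fin 5), S ∪ T = U → S ∩ T = V → e U + e V ≤ e S + e T := by
    intro S T U V h1 h2
    rw [← h1, ← h2]
    exact he S T
  -- I(A;W|D)
  have i1 := f {0, 3} {3, 4} {0, 3, 4} {3} (by decide) (by decide)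
  -- I(B;W|ACD)
  have i2 := f {0, 1, 2, 3} {0, 2, 3, 4} {0, 1, 2, 3, 4} {0, 2, 3} (by decide) (by decide)
  -- I(B;W|D)
  have i3 := f {1, 3} {3, 4} {1, 3, 4} {3} (by decide) (by decide)
  -- I(A;W|BCD)
  have i4 := f {0, 1, 2, 3} {1, 2, 3, 4} {0, 1, 2, 3, 4} {1, 2, 3} (by decide) (by decide)
  -- I(C;D|WB)
  have i5 := f {1, 2, 4} {1, 3, 4} {1, 2, 3, 4} {1, 4} (by decide) (by decide)
  -- I(W;A|C)
  have i6 := f {2, 4} {0, 2} {0, 2, 4} {2} (by decide) (by decide)
  -- I(W;B|C)
  have i7 := f {2, 4} {1, 2} {1, 2, 4} {2} (by decide) (by decide)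
  -- I(A;B|W)
  have i8 := f {0, 4} {1, 4} {0, 1, 4} {4} (by decide) (by decide)
  -- I(W;C|AB)
  have i9 := f {0, 1, 4} {0, 1, 2} {0, 1, 2, 4} {0, 1} (by decide) (by decide)
  -- I(W;D|ABC)
  have i10 := f {0, 1, 2, 4} {0, 1, 2, 3} {0, 1, 2, 3, 4} {0, 1, 2} (by decide) (by decide)
  -- I(B;W|CD)
  have i11 := f {1, 2, 3} {2, 3, 4} {1, 2, 3, 4} {2, 3} (by decide) (by decide)
  linarith

section iter

variable {Ω α β γ δ ζ : Type} [Fintype Ω] [Fintype α] [Fintype β] [Fintype γ] [Fintype δ]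
  [Fintype ζ]

/-- joint variable of a subset of five variables -/
noncomputable def jv (A : Ω → α) (B : Ω → β) (C : Ω → γ) (D : Ω → δ) (W : Ω → ζ)
    (S : Finset (Fin 5)) (o : Ω) : Option α × Option β × Option γ × Option δ × Option ζ :=
  ((if 0 ∈ S then some (A o) else none), (if 1 ∈ S then some (B o) else none),
    (if 2 ∈ S then some (C o) else none), (if 3 ∈ S then some (D o) else none),
    (if 4 ∈ S then some (W o) else none))

omit [Fintype Ω] [Fintype α] [Fintype β] [Fintype γ] [Fintype δ] [Fintype ζ] in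
theorem jv_ker (A : Ω → α) (B : Ω → β) (C : Ω → γ) (D : Ω → δ) (W : Ω → ζ)
    (S : Finset (Fin 5)) (o o' : Ω) : jv A B C D W S o = jv A B C D W S o' ↔
      (0 ∈ S → A o = A o') ∧ (1 ∈ S → B o = B o') ∧ (2 ∈ S → C o = C o') ∧
      (3 ∈ S → D o = D o') ∧ (4 ∈ S → W o = W o') := by
  unfold jv
  simp only [Prod.mk.injEq]
  have key : ∀ (i : Fin 5) {ξ : Type} (x y : ξ),
      ((if i ∈ S then some x else none) = (if i ∈ S then some y else none)) ↔
        (i ∈ S → x = y) := by
    intro i ξ x y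
    by_cases h : i ∈ S <;> simp [h]
  rw [key, key, key, key, key]

theorem jv_submod {w : Ω → ℝ} (hw : Law w) (A : Ω → α) (B : Ω → β) (C : Ω → γ) (D : Ω → δ)
    (W : Ω → ζ) (S T : Finset (Fin 5)) :
    H w (jv A B C D W (S ∪ T)) + H w (jv A B C D W (S ∩ T)) ≤
      H w (jv A B C D W S) + H w (jv A B C D W T) := by
  refine H_submod_ker hw _ _ _ _ (fun o o' h => ?_) (fun o o' h => ?_) (fun o o' h => ?_)
  · rw [jv_ker] at h ⊢
    rw [jv_ker] at h
    simp only [Finset.mem_union]
    obtain ⟨⟨a0, a1, a2, a3, a4⟩, ⟨b0, b1, b2, b3, b4⟩⟩ := h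
    exact ⟨fun hi => hi.elim a0 b0, fun hi => hi.elim a1 b1, fun hi => hi.elim a2 b2,
      fun hi => hi.elim a3 b3, fun hi => hi.elim a4 b4⟩
  · rw [jv_ker] at h ⊢
    simp only [Finset.mem_inter]
    obtain ⟨a0, a1, a2, a3, a4⟩ := h
    exact ⟨fun hi => a0 hi.1, fun hi => a1 hi.1, fun hi => a2 hi.1, fun hi => a3 hi.1,
      fun hi => a4 hi.1⟩
  · rw [jv_ker] at h ⊢
    simp only [Finset.mem_inter]
    obtain ⟨a0, a1, a2, a3, a4⟩ := h
    exact ⟨fun hi => a0 hi.2, fun hi => a1 hi.2, fun hi => a2 hi.2, fun hi => a3 hi.2,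
      fun hi => a4 hi.2⟩

/-- the Ingleton expression -/
noncomputable def Ing (w : Ω → ℝ) (A : Ω → α) (B : Ω → β) (C : Ω → γ) (D : Ω → δ) : ℝ :=
  H w (fun o => (A o, C o)) + H w (fun o => (A o, D o)) + H w (fun o => (B o, C o)) +
    H w (fun o => (B o, D o)) + H w (fun o => (C o, D o)) - H w (fun o => (A o, C o, D o)) -
    H w (fun o => (B o, C o, D o)) - H w (fun o => (A o, B o)) - H w C - H w D

/-- conditional mutual information of `X` and `Y` given `Z` -/
noncomputable def MI (w : Ω → ℝ) (X : Ω → α) (Y : Ω → β) (Z : Ω → γ) : ℝ :=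
  H w (fun o => (X o, Z o)) + H w (fun o => (Y o, Z o)) - H w (fun o => (X o, Y o, Z o)) - H w Z

theorem step1 {w : Ω → ℝ} (hw : Law w) (A : Ω → α) (B : Ω → β) (C : Ω → γ) (D : Ω → δ)
    (W : Ω → ζ)
    (h0 : MI w W (fun o => (A o, B o)) (fun o => (C o, D o)) = 0) :
    0 ≤ Ing w A B C D + MI w C D W - MI w C D (fun o => (W o, A o)) + MI w W C D + MI w W D C ∧
      MI w (fun o => (W o, A o)) C D ≤ MI w W C D + MI w A C D ∧
      MI w (fun o => (W o, A o)) D C ≤ MI w W D C + MI w A D C := by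
  have e1 : ∀ {ξ : Type} [Fintype ξ] (S : Finset (Fin 5)) (X : Ω → ξ),
      (∀ o o', ((0 ∈ S → A o = A o') ∧ (1 ∈ S → B o = B o') ∧ (2 ∈ S → C o = C o') ∧
      (3 ∈ S → D o = D o') ∧ (4 ∈ S → W o = W o')) ↔ X o = X o') →
      H w (jv A B C D W S) = H w X := by
    intro ξ _ S X h
    refine H_congr w _ _ fun o o' => ?_
    rw [jv_ker]
    exact h o o'
  have t02 := e1 {0, 2} (fun o => (A o, C o)) (by intro o o'; simp)
  have t03 := e1 {0, 3} (fun o => (A o, D o)) (by intro o o'; simp)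
  have t12 := e1 {1, 2} (fun o => (B o, C o)) (by intro o o'; simp)
  have t13 := e1 {1, 3} (fun o => (B o, D o)) (by intro o o'; simp)
  have t23 := e1 {2, 3} (fun o => (C o, D o)) (by intro o o'; simp)
  have t023 := e1 {0, 2, 3} (fun o => (A o, C o, D o)) (by intro o o'; simp)
  have t123 := e1 {1, 2, 3} (fun o => (B o, C o, D o)) (by intro o o'; simp)
  have t01 := e1 {0, 1} (fun o => (A o, B o)) (by intro o o'; simp)
  have t2 := e1 {2} C (by intro o o'; simp)
  have t3 := e1 {3} D (by intro o o'; simp)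
  have t4 := e1 {4} W (by intro o o'; simp)
  have t24 := e1 {2, 4} (fun o => (C o, W o)) (by intro o o'; simp)
  have t34 := e1 {3, 4} (fun o => (D o, W o)) (by intro o o'; simp)
  have t24' := e1 {2, 4} (fun o => (W o, C o)) (by intro o o'; simp; exact ⟨fun h => by simp [h], fun h => by simp [h]⟩)
  have t34' := e1 {3, 4} (fun o => (W o, D o)) (by intro o o'; simp; exact ⟨fun h => by simp [h], fun h => by simp [h]⟩)
  have t23' := e1 {2, 3} (fun o => (D o, C o)) (by intro o o'; simp; exact ⟨fun h => by simp [h], fun h => by simp [h]⟩)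
  have t234 := e1 {2, 3, 4} (fun o => (C o, D o, W o)) (by intro o o'; simp)
  have t234' := e1 {2, 3, 4} (fun o => (W o, C o, D o)) (by intro o o'; simp; exact ⟨fun h => by simp [h], fun h => by simp [h]⟩)
  have t234'' := e1 {2, 3, 4} (fun o => (W o, D o, C o)) (by intro o o'; simp; exact ⟨fun h => by simp [h], fun h => by simp [h]⟩)
  have t04 := e1 {0, 4} (fun o => (W o, A o)) (by intro o o'; simp; exact ⟨fun h => by simp [h], fun h => by simp [h]⟩)
  have t024 := e1 {0, 2, 4} (fun o => (C o, W o, A o)) (by intro o o'; simp; exact ⟨fun h => by simp [h], fun h => by simp [h]⟩)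
  have t034 := e1 {0, 3, 4} (fun o => (D o, W o, A o)) (by intro o o'; simp; exact ⟨fun h => by simp [h], fun h => by simp [h]⟩)
  have t0234 := e1 {0, 2, 3, 4} (fun o => (C o, D o, W o, A o)) (by intro o o'; simp; exact ⟨fun h => by simp [h], fun h => by simp [h]⟩)
  have t0234' := e1 {0, 2, 3, 4} (fun o => ((W o, A o), C o, D o)) (by intro o o'; simp; exact ⟨fun h => by simp [h], fun h => by simp [h]⟩)
  have t0234'' := e1 {0, 2, 3, 4} (fun o => ((W o, A o), D o, C o)) (by intro o o'; simp; exact ⟨fun h => by simp [h], fun h => by simp [h]⟩)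
  have t024' := e1 {0, 2, 4} (fun o => ((W o, A o), C o)) (by intro o o'; simp; exact ⟨fun h => by simp [h], fun h => by simp [h]⟩)
  have t034' := e1 {0, 3, 4} (fun o => ((W o, A o), D o)) (by intro o o'; simp; exact ⟨fun h => by simp [h], fun h => by simp [h]⟩)
  have t0123 := e1 {0, 1, 2, 3} (fun o => ((A o, B o), C o, D o)) (by intro o o'; simp; exact ⟨fun h => by simp [h], fun h => by simp [h]⟩)
  have t01234 := e1 {0, 1, 2, 3, 4} (fun o => (W o, (A o, B o), C o, D o))
    (by intro o o'; simp; exact ⟨fun h => by simp [h], fun h => by simp [h]⟩)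
  have t023' := e1 {0, 2, 3} (fun o => (A o, D o, C o)) (by intro o o'; simp; tauto)
  have hsub := fun S T => jv_submod hw A B C D W S T
  have hL := step_lp (fun S => H w (jv A B C D W S)) hsub (by
    rw [t0123, t01234, t23, t234']
    unfold MI at h0
    linarith)
  have f : ∀ S T U V : Finset (Fin 5), S ∪ T = U → S ∩ T = V →
      H w (jv A B C D W U) + H w (jv A B C D W V) ≤
        H w (jv A B C D W S) + H w (jv A B C D W T) := by
    intro S T U V h1 h2
    rw [← h1, ← h2]
    exact hsub S T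
  refine ⟨?_, ?_, ?_⟩
  · unfold Ing MI
    rw [t02, t03, t12, t13, t23, t023, t123, t01, t2, t3, t24, t34, t234, t4, t024, t034, t0234,
      t04] at hL
    rw [← t34', ← t24', ← t234', ← t234'', ← t23', t34, t24, t234, t23]
    linarith
  · have i1 := f {0, 3} {3, 4} {0, 3, 4} {3} (by decide) (by decide)
    have i2 := f {0, 1, 2, 3} {0, 2, 3, 4} {0, 1, 2, 3, 4} {0, 2, 3} (by decide) (by decide)
    unfold MI at h0 ⊢
    rw [← t034', ← t0234', ← t34', ← t234', ← t03, ← t023, ← t3, ← t23]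
    rw [← t234', ← t0123, ← t01234, ← t23] at h0
    linarith
  · have i1 := f {0, 2} {2, 4} {0, 2, 4} {2} (by decide) (by decide)
    have i2 := f {0, 1, 2, 3} {0, 2, 3, 4} {0, 1, 2, 3, 4} {0, 2, 3} (by decide) (by decide)
    unfold MI at h0 ⊢
    rw [← t024', ← t0234'', ← t24', ← t234'', ← t02, ← t023', ← t2, ← t23']
    rw [← t234', ← t0123, ← t01234, ← t23] at h0
    linarith

end iter

theorem MI_nonneg {Ω α β γ : Type} [Fintype Ω] [Fintype α] [Fintype β] [Fintype γ] {w : Ω → ℝ}
    (hw : Law w) (X : Ω → α) (Y : Ω → β) (Z : Ω → γ) : 0 ≤ MI w X Y Z := by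
  have := H_submod hw X Y Z
  unfold MI
  linarith

theorem iter {α β γ δ : Type} [Fintype α] [Fintype β] [Fintype γ] [Fintype δ] (K : ℕ) :
    ∀ (Ω ζ : Type) [Fintype Ω] [Fintype ζ] (w : Ω → ℝ) (_ : Law w) (A : Ω → α) (B : Ω → β)
      (C : Ω → γ) (D : Ω → δ) (W : Ω → ζ) (k : ℝ),
      MI w W (fun o => (A o, B o)) (fun o => (C o, D o)) = 0 →
      MI w W C D ≤ k * MI w A C D → MI w W D C ≤ k * MI w A D C →
      0 ≤ K * Ing w A B C D + MI w C D W + (K * k + K * (K - 1) / 2) *
        (MI w A C D + MI w A D C) := by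
  induction K with
  | zero =>
    intro Ω ζ _ _ w hw A B C D W k _ _ _
    have := MI_nonneg hw C D W
    simpa using this
  | succ K ih =>
    intro Ω ζ _ _ w hw A B C D W k h0 h1 h2
    obtain ⟨s1, s2, s3⟩ := step1 hw A B C D W h0
    -- the extension
    have hq : ∀ q : Pr (fun o => (C o, D o)), C q.1.1 = C q.1.2 ∧ D q.1.1 = D q.1.2 := by
      intro q
      exact Prod.ext_iff.1 q.2
    have hs : ∀ {ξ : Type} [Fintype ξ] (f : Ω → ξ),
        H (ww w (fun o => (C o, D o))) (fun q => f q.1.2) = H w f := by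
      intro ξ _ f
      unfold H
      rw [push_snd hw.1]
    have hf : ∀ {ξ : Type} [Fintype ξ] (f : Ω → ξ),
        H (ww w (fun o => (C o, D o))) (fun q => f q.1.1) = H w f := by
      intro ξ _ f
      unfold H
      rw [push_fst hw.1]
    have hI := ih (Pr (fun o => (C o, D o))) (ζ × α) (ww w (fun o => (C o, D o)))
      (law_ww hw _) (fun q => A q.1.2) (fun q => B q.1.2) (fun q => C q.1.2) (fun q => D q.1.2)
      (fun q => (W q.1.1, A q.1.1)) (k + 1)
    have c1 : Ing (ww w (fun o => (C o, D o))) (fun q => A q.1.2) (fun q => B q.1.2)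
        (fun q => C q.1.2) (fun q => D q.1.2) = Ing w A B C D := by
      unfold Ing
      rw [hs (fun o => (A o, C o)), hs (fun o => (A o, D o)), hs (fun o => (B o, C o)),
        hs (fun o => (B o, D o)), hs (fun o => (C o, D o)), hs (fun o => (A o, C o, D o)),
        hs (fun o => (B o, C o, D o)), hs (fun o => (A o, B o)), hs C, hs D]
    have c2 : MI (ww w (fun o => (C o, D o))) (fun q => A q.1.2) (fun q => C q.1.2)
        (fun q => D q.1.2) = MI w A C D := by
      unfold MI
      rw [hs (fun o => (A o, D o)), hs (fun o => (C o, D o)), hs (fun o => (A o, C o, D o)), hs D]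
    have c3 : MI (ww w (fun o => (C o, D o))) (fun q => A q.1.2) (fun q => D q.1.2)
        (fun q => C q.1.2) = MI w A D C := by
      unfold MI
      rw [hs (fun o => (A o, C o)), hs (fun o => (D o, C o)), hs (fun o => (A o, D o, C o)), hs C]
    -- replace `C q.1.2` by `C q.1.1`
    have d1 : (fun q : Pr (fun o => (C o, D o)) => C q.1.2) = fun q => C q.1.1 :=
      funext fun q => (hq q).1.symm
    have d2 : (fun q : Pr (fun o => (C o, D o)) => D q.1.2) = fun q => D q.1.1 :=
      funext fun q => (hq q).2.symm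
    have c4 : MI (ww w (fun o => (C o, D o))) (fun q => C q.1.2) (fun q => D q.1.2)
        (fun q => (W q.1.1, A q.1.1)) = MI w C D (fun o => (W o, A o)) := by
      rw [d1, d2]
      unfold MI
      rw [hf (fun o => (C o, W o, A o)), hf (fun o => (D o, W o, A o)),
        hf (fun o => (C o, D o, W o, A o)), hf (fun o => (W o, A o))]
    have c5 : MI (ww w (fun o => (C o, D o))) (fun q => (W q.1.1, A q.1.1)) (fun q => C q.1.2)
        (fun q => D q.1.2) = MI w (fun o => (W o, A o)) C D := by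
      rw [d1, d2]
      unfold MI
      rw [hf (fun o => ((W o, A o), D o)), hf (fun o => (C o, D o)),
        hf (fun o => ((W o, A o), C o, D o)), hf D]
    have c6 : MI (ww w (fun o => (C o, D o))) (fun q => (W q.1.1, A q.1.1)) (fun q => D q.1.2)
        (fun q => C q.1.2) = MI w (fun o => (W o, A o)) D C := by
      rw [d1, d2]
      unfold MI
      rw [hf (fun o => ((W o, A o), C o)), hf (fun o => (D o, C o)),
        hf (fun o => ((W o, A o), D o, C o)), hf C]
    have c7 : MI (ww w (fun o => (C o, D o))) (fun q => (W q.1.1, A q.1.1))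
        (fun q => (A q.1.2, B q.1.2)) (fun q => (C q.1.2, D q.1.2)) = 0 := by
      have h3 := H_CI (law_ww hw (fun o => (C o, D o)))
        (CI_ww hw.1 (fun o => (C o, D o)) (fun o => (W o, A o)) (fun o => (A o, B o)))
      have d3 : (fun q : Pr (fun o => (C o, D o)) => (C q.1.2, D q.1.2)) =
          fun q => (C q.1.1, D q.1.1) :=
        funext fun q => q.2.symm
      rw [d3]
      unfold MI
      have d4 : ∀ q : Pr (fun o => (C o, D o)), (C q.1.2, D q.1.2) = (C q.1.1, D q.1.1) :=
        fun q => q.2.symm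
      linarith
    have hI' := hI c7 (by rw [c5, c2]; linarith) (by rw [c6, c3]; linarith)
    rw [c1, c2, c3, c4] at hI'
    have g1 := MI_nonneg hw A C D
    have g2 := MI_nonneg hw A D C
    push_cast
    nlinarith [hI', s1, h1, h2]

/-- infinitely many information inequalities of Matus type -/
theorem matus {Ω α β γ δ : Type} [Fintype Ω] [Fintype α] [Fintype β] [Fintype γ] [Fintype δ]
    {w : Ω → ℝ} (hw : Law w) (A : Ω → α) (B : Ω → β) (C : Ω → γ) (D : Ω → δ) (K : ℕ) :
    0 ≤ K * Ing w A B C D + (H w C + H w D - H w (fun o => (C o, D o))) + K * (K - 1) / 2 *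
        (MI w A C D + MI w A D C) := by
  have e1 : ∀ {ξ : Type} [Fintype ξ] (X : Ω → ξ), H w (fun o => (X o, ())) = H w X := by
    intro ξ _ X
    exact H_congr w _ _ fun o o' => by simp
  have e2 : ∀ {ξ : Type} [Fintype ξ] (X : Ω → ξ), H w (fun o => ((), X o)) = H w X := by
    intro ξ _ X
    exact H_congr w _ _ fun o o' => by simp
  have e3 : H w (fun o => (C o, D o, ())) = H w (fun o => (C o, D o)) :=
    H_congr w _ _ fun o o' => by simp
  have e4 := H_unit hw
  have h := iter K Ω Unit w hw A B C D (fun _ => ()) 0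
    (by unfold MI; rw [e2 (fun o => (C o, D o)), e2 (fun o => ((A o, B o), C o, D o))]; ring)
    (by unfold MI; rw [e2 D, e2 (fun o => (C o, D o))]; ring_nf; rfl)
    (by unfold MI; rw [e2 C, e2 (fun o => (D o, C o))]; ring_nf; rfl)
  have e5 : MI w C D (fun _ => ()) = H w C + H w D - H w (fun o => (C o, D o)) := by
    unfold MI
    rw [e3, e4, e1 C, e1 D]
    ring
  rw [e5] at h
  linarith

end Pool.Agent.W5h51.TP
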