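import Pool.Agent.W5h51.TP.Hom
set_option autoImplicit false

/-! The target graphs. -/

open scoped Classical

namespace Pool.Agent.W5h51.TP

section target

variable {n : ℕ} (m d : ℕ)

/-- admissible labels of a type -/
def okl (i : Fin 13) (s : Finset (Fin n)) : Prop :=
  (i.val < 9 → s = ∅) ∧ (i = 9 → s.card = 1) ∧ (i = 10 → s.card + 1 = m) ∧
    (i = 11 → s.card = m + d) ∧ (i = 12 → s.card = m + d)

/-- the relation between labels -/
def rel (i : Fin 13) (s : Finset (Fin n)) (j : Fin 13) (t : Finset (Fin n)) : Prop :=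
  (i = 9 → j = 10 → Disjoint s t) ∧ ((i = 9 ∨ i = 10) → (j = 11 ∨ j = 12) → s ⊆ t) ∧
    (i = 11 → j = 12 → (s ∩ t).card = m)

variable (n) in
/-- the target graph -/
def TG : SimpleGraph (Fin 13 × Finset (Fin n)) where
  Adj p q := Q.Adj p.1 q.1 ∧ okl m d p.1 p.2 ∧ okl m d q.1 q.2 ∧ rel m p.1 p.2 q.1 q.2 ∧
    rel m q.1 q.2 p.1 p.2
  symm := ⟨fun p q h => ⟨h.1.symm, h.2.2.1, h.2.1, h.2.2.2.2, h.2.2.2.1⟩⟩
  loopless := ⟨fun p h => Q.loopless.irrefl _ h.1⟩

theorem core_nbr : ∀ i : Fin 13, ∃ j : Fin 13, j.val < 9 ∧ adjB i j = true := by decide +kernel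

theorem core_mem (S : Finset (Fin 13)) (i : Fin 13) (hi : i.val < 9) : i ∈ cs S := by
  unfold cs
  rw [Finset.mem_union]
  left
  revert i
  decide

variable {m d}

theorem typ {S : Finset (Fin 13)} (f : PG S →g TG n m d) (i : Fin 13) (hi : i ∈ cs S) :
    (f ⟨i, hi⟩).1 = i := by
  have h := rigid {i | i ∈ cs S} (fun i hi => core_mem S i hi)
    (fun i => if h : i ∈ cs S then (f ⟨i, h⟩).1 else i) (by
      intro u hu v hv huv
      have hu' : u ∈ cs S := hu
      have hv' : v ∈ cs S := hv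
      rw [dif_pos hu', dif_pos hv']
      have h1 : (PG S).Adj ⟨u, hu'⟩ ⟨v, hv'⟩ := huv
      exact (f.map_rel' h1).1)
  have h2 := h i hi
  rw [dif_pos hi] at h2
  exact h2

theorem typQ (f : Q →g TG n m d) (i : Fin 13) : (f i).1 = i :=
  rigid Set.univ (fun _ _ => trivial) (fun i => (f i).1)
    (fun _ _ _ _ h => (f.map_rel' h).1) i trivial

/-- the relations between the labels of a homomorphism -/
theorem lab {S : Finset (Fin 13)} (f : PG S →g TG n m d) (i j : Fin 13) (hi : i ∈ cs S)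
    (hj : j ∈ cs S) (h : adjB i j = true) : okl m d i (f ⟨i, hi⟩).2 ∧ okl m d j (f ⟨j, hj⟩).2 ∧
      rel m i (f ⟨i, hi⟩).2 j (f ⟨j, hj⟩).2 := by
  have h1 : (PG S).Adj ⟨i, hi⟩ ⟨j, hj⟩ := h
  have h2 : (TG n m d).Adj (f ⟨i, hi⟩) (f ⟨j, hj⟩) := f.map_rel' h1
  have e1 := typ f i hi
  have e2 := typ f j hj
  have h3 := h2.2
  rw [e1, e2] at h3
  exact ⟨h3.1, h3.2.1, h3.2.2.1⟩

theorem labQ (f : Q →g TG n m d) (i j : Fin 13) (h : adjB i j = true) :
    okl m d i (f i).2 ∧ okl m d j (f j).2 ∧ rel m i (f i).2 j (f j).2 := by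
  have h2 : (TG n m d).Adj (f i) (f j) := f.map_rel' h
  have e1 := typQ f i
  have e2 := typQ f j
  have h3 := h2.2
  rw [e1, e2] at h3
  exact ⟨h3.1, h3.2.1, h3.2.2.1⟩

theorem core_lab {S : Finset (Fin 13)} (f : PG S →g TG n m d) (i : Fin 13) (hi : i ∈ cs S)
    (h9 : i.val < 9) : f ⟨i, hi⟩ = (i, ∅) := by
  obtain ⟨j, hj, hij⟩ := core_nbr i
  have h := lab f i j hi (core_mem S j hj) hij
  exact Prod.ext (typ f i hi) (h.1.1 h9)

theorem core_labQ (f : Q →g TG n m d) (i : Fin 13) (h9 : i.val < 9) : f i = (i, ∅) := by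
  obtain ⟨j, hj, hij⟩ := core_nbr i
  have h := labQ f i j hij
  exact Prod.ext (typQ f i) (h.1.1 h9)

theorem eq_of_lab {S : Finset (Fin 13)} (f g : PG S →g TG n m d)
    (h : ∀ i (hi : i ∈ cs S), ¬ i.val < 9 → (f ⟨i, hi⟩).2 = (g ⟨i, hi⟩).2) : f = g := by
  refine RelHom.ext ?_
  rintro ⟨i, hi⟩
  by_cases h9 : i.val < 9
  · exact (core_lab f i hi h9).trans (core_lab g i hi h9).symm
  · exact Prod.ext ((typ f i hi).trans (typ g i hi).symm) (h i hi h9)

theorem eq_of_labQ (f g : Q →g TG n m d)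
    (h : ∀ i : Fin 13, ¬ i.val < 9 → (f i).2 = (g i).2) : f = g := by
  refine RelHom.ext ?_
  intro i
  by_cases h9 : i.val < 9
  · exact (core_labQ f i h9).trans (core_labQ g i h9).symm
  · exact Prod.ext ((typQ f i).trans (typQ g i).symm) (h i h9)

theorem card_le_finset {X τ : Type*} (T : Finset τ) (φ : X → τ) (hφ : Function.Injective φ)
    (hT : ∀ x, φ x ∈ T) : Nat.card X ≤ T.card := by
  have h := Nat.card_le_card_of_injective (fun x : X => (⟨φ x, hT x⟩ : {t // t ∈ T}))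
    (fun x y h => hφ (congrArg Subtype.val h))
  rw [Nat.card_eq_fintype_card (α := {t // t ∈ T}), Fintype.card_coe] at h
  exact h

theorem core_lt : ∀ i : Fin 13, i ∈ ({0, 1, 2, 3, 4, 5, 6, 7, 8} : Finset (Fin 13)) → i.val < 9 := by
  decide

theorem mem_cs {S : Finset (Fin 13)} {i : Fin 13} (hi : i ∈ cs S) (h9 : ¬ i.val < 9) : i ∈ S := by
  unfold cs at hi
  rcases Finset.mem_union.1 hi with h | h
  · exact absurd (core_lt i h) h9
  · exact h

theorem sub_cs {S : Finset (Fin 13)} {i : Fin 13} (hi : i ∈ S) : i ∈ cs S := by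
  unfold cs
  exact Finset.mem_union_right _ hi

theorem adj_910 : adjB 9 10 = true := by decide +kernel
theorem adj_911 : adjB 9 11 = true := by decide +kernel
theorem adj_912 : adjB 9 12 = true := by decide +kernel
theorem adj_1011 : adjB 10 11 = true := by decide +kernel
theorem adj_1012 : adjB 10 12 = true := by decide +kernel
theorem adj_1112 : adjB 11 12 = true := by decide +kernel

theorem mem_sub {C s : Finset (Fin n)} {k l : ℕ} (hC : C.card = l) (hs : s ⊆ C)
    (hk : s.card = k) : (⟨C, s⟩ : Σ _ : Finset (Fin n), Finset (Fin n)) ∈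
      (Finset.powersetCard l (Finset.univ : Finset (Fin n))).sigma
        (fun C => Finset.powersetCard k C) := by
  rw [Finset.mem_sigma]
  exact ⟨Finset.mem_powersetCard.2 ⟨Finset.subset_univ _, hC⟩, Finset.mem_powersetCard.2 ⟨hs, hk⟩⟩

theorem card_sub (l k : ℕ) : ((Finset.powersetCard l (Finset.univ : Finset (Fin n))).sigma
        (fun C => Finset.powersetCard k C)).card = n.choose l * l.choose k := by
  rw [Finset.card_sigma, Finset.sum_congr rfl (g := fun _ => l.choose k), Finset.sum_const,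
    Finset.card_powersetCard, Finset.card_univ, Fintype.card_fin, smul_eq_mul]
  intro C hC
  rw [Finset.card_powersetCard, (Finset.mem_powersetCard.1 hC).2]

/-- homomorphisms of the patterns with one small and one large type -/
theorem card_P (b c : Fin 13) (k : ℕ) (hb : b ≠ c) (hbc : adjB b c = true)
    (h1 : b = 9 ∨ b = 10) (h2 : c = 11 ∨ c = 12) (hk : ∀ s : Finset (Fin n), okl m d b s → s.card = k)
    (hc : ∀ s : Finset (Fin n), okl m d c s → s.card = m + d) :
    Nat.card (PG {b, c} →g TG n m d) ≤ n.choose (m + d) * (m + d).choose k := by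
  have mb : b ∈ cs {b, c} := by unfold cs; simp
  have mc : c ∈ cs {b, c} := by unfold cs; simp
  rw [← card_sub]
  refine card_le_finset _ (fun f => ⟨(f ⟨c, mc⟩).2, (f ⟨b, mb⟩).2⟩) ?_ ?_
  · intro f g h
    have h3 : (f ⟨c, mc⟩).2 = (g ⟨c, mc⟩).2 := congrArg Sigma.fst h
    have h4 : (f ⟨b, mb⟩).2 = (g ⟨b, mb⟩).2 := congrArg
      (fun x : Σ _ : Finset (Fin n), Finset (Fin n) => x.2) h
    refine eq_of_lab f g fun i hi h9 => ?_
    have : i = b ∨ i = c := by
      have h5 := hi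
      unfold cs at h5
      rw [Finset.mem_union] at h5
      rcases h5 with h5 | h5
      · exact absurd (core_lt i h5) h9
      · simpa using h5
    rcases this with h6 | h6
    · subst h6; exact h4
    · subst h6; exact h3
  · intro f
    have h := lab f b c mb mc hbc
    exact mem_sub (hc _ h.2.1) (h.2.2.2.1 h1 h2) (hk _ h.1)

/-- the two large types -/
theorem card_PCD : Nat.card (PG {11, 12} →g TG n m d) ≤
    n.choose (m + d) * ((m + d).choose m * (n - (m + d)).choose d) := by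
  have m11 : (11 : Fin 13) ∈ cs {11, 12} := by unfold cs; simp
  have m12 : (12 : Fin 13) ∈ cs {11, 12} := by unfold cs; simp
  have hT : ((Finset.powersetCard (m + d) (Finset.univ : Finset (Fin n))).sigma
        (fun C => Finset.powersetCard m C ×ˢ Finset.powersetCard d Cᶜ)).card =
      n.choose (m + d) * ((m + d).choose m * (n - (m + d)).choose d) := by
    rw [Finset.card_sigma, Finset.sum_congr rfl
      (g := fun _ => (m + d).choose m * (n - (m + d)).choose d), Finset.sum_const,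
      Finset.card_powersetCard, Finset.card_univ, Fintype.card_fin, smul_eq_mul]
    intro C hC
    rw [Finset.card_product, Finset.card_powersetCard, Finset.card_powersetCard,
      Finset.card_compl, (Finset.mem_powersetCard.1 hC).2, Fintype.card_fin]
  rw [← hT]
  refine card_le_finset _ (fun f => ⟨(f ⟨11, m11⟩).2,
    ((f ⟨11, m11⟩).2 ∩ (f ⟨12, m12⟩).2, (f ⟨12, m12⟩).2 \ (f ⟨11, m11⟩).2)⟩) ?_ ?_
  · intro f g h
    have h3 : (f ⟨11, m11⟩).2 = (g ⟨11, m11⟩).2 := congrArg Sigma.fst h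
    have h4 : ((f ⟨11, m11⟩).2 ∩ (f ⟨12, m12⟩).2, (f ⟨12, m12⟩).2 \ (f ⟨11, m11⟩).2) =
      ((g ⟨11, m11⟩).2 ∩ (g ⟨12, m12⟩).2, (g ⟨12, m12⟩).2 \ (g ⟨11, m11⟩).2) := congrArg
      (fun x : Σ _ : Finset (Fin n), Finset (Fin n) × Finset (Fin n) => x.2) h
    have h5 := Prod.ext_iff.1 h4
    have h6 : (f ⟨12, m12⟩).2 = (g ⟨12, m12⟩).2 := by
      have e1 : (f ⟨12, m12⟩).2 = ((f ⟨11, m11⟩).2 ∩ (f ⟨12, m12⟩).2) ∪
          ((f ⟨12, m12⟩).2 \ (f ⟨11, m11⟩).2) := by
        ext x; simp; tauto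
      have e2 : (g ⟨12, m12⟩).2 = ((g ⟨11, m11⟩).2 ∩ (g ⟨12, m12⟩).2) ∪
          ((g ⟨12, m12⟩).2 \ (g ⟨11, m11⟩).2) := by
        ext x; simp; tauto
      rw [e1, e2]
      exact congrArg₂ _ h5.1 h5.2
    refine eq_of_lab f g fun i hi h9 => ?_
    have : i = 11 ∨ i = 12 := by
      have h7 := mem_cs hi h9
      simpa using h7
    rcases this with h7 | h7
    · subst h7; exact h3
    · subst h7; exact h6
  · intro f
    have h := lab f 11 12 m11 m12 adj_1112
    rw [Finset.mem_sigma]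
    refine ⟨Finset.mem_powersetCard.2 ⟨Finset.subset_univ _, h.1.2.2.2.1 rfl⟩, ?_⟩
    rw [Finset.mem_product]
    have hD : (f ⟨12, m12⟩).2.card = m + d := h.2.1.2.2.2.2 rfl
    have hI : ((f ⟨11, m11⟩).2 ∩ (f ⟨12, m12⟩).2).card = m := h.2.2.2.2 rfl rfl
    refine ⟨Finset.mem_powersetCard.2 ⟨Finset.inter_subset_left, hI⟩,
      Finset.mem_powersetCard.2 ⟨?_, ?_⟩⟩
    · intro x hx
      rw [Finset.mem_compl]
      exact (Finset.mem_sdiff.1 hx).2
    · have h1 := Finset.card_inter_add_card_sdiff (f ⟨12, m12⟩).2 (f ⟨11, m11⟩).2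
      rw [Finset.inter_comm] at h1
      simp only
      omega

/-- all relations between the labels of a homomorphism of the type graph -/
theorem all_lab (g : Q →g TG n m d) : (g 9).2.card = 1 ∧ (g 10).2.card + 1 = m ∧
    (g 11).2.card = m + d ∧ (g 12).2.card = m + d ∧ Disjoint (g 9).2 (g 10).2 ∧
    (g 9).2 ∪ (g 10).2 = (g 11).2 ∩ (g 12).2 ∧ ((g 11).2 ∩ (g 12).2).card = m := by
  have h1 := labQ g 9 10 adj_910
  have h2 := labQ g 9 11 adj_911
  have h3 := labQ g 9 12 adj_912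
  have h4 := labQ g 10 11 adj_1011
  have h5 := labQ g 10 12 adj_1012
  have h6 := labQ g 11 12 adj_1112
  have c9 : (g 9).2.card = 1 := h1.1.2.1 rfl
  have c10 : (g 10).2.card + 1 = m := h1.2.1.2.2.1 rfl
  have c11 : (g 11).2.card = m + d := h6.1.2.2.2.1 rfl
  have c12 : (g 12).2.card = m + d := h6.2.1.2.2.2.2 rfl
  have cI : ((g 11).2 ∩ (g 12).2).card = m := h6.2.2.2.2 rfl rfl
  have hdis : Disjoint (g 9).2 (g 10).2 := h1.2.2.1 rfl rfl
  refine ⟨c9, c10, c11, c12, hdis, ?_, cI⟩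
  refine Finset.eq_of_subset_of_card_le ?_ ?_
  · refine Finset.union_subset (Finset.subset_inter ?_ ?_) (Finset.subset_inter ?_ ?_)
    · exact h2.2.2.2.1 (Or.inl rfl) (Or.inl rfl)
    · exact h3.2.2.2.1 (Or.inl rfl) (Or.inr rfl)
    · exact h4.2.2.2.1 (Or.inr rfl) (Or.inl rfl)
    · exact h5.2.2.2.1 (Or.inr rfl) (Or.inr rfl)
  · rw [cI, Finset.card_union_of_disjoint hdis]
    omega

theorem card_pairs {Ω : Type} [Fintype Ω] (ρ : Ω → Ω → Prop) (b : ℕ)
    (hb : ∀ f, Nat.card {g // ρ f g} ≤ b) :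
    Nat.card {q : Ω × Ω // ρ q.1 q.2} ≤ Nat.card Ω * b := by
  have e : {q : Ω × Ω // ρ q.1 q.2} ≃ Σ f, {g // ρ f g} :=
    { toFun := fun q => ⟨q.1.1, ⟨q.1.2, q.2⟩⟩
      invFun := fun x => ⟨(x.1, x.2.1), x.2.2⟩
      left_inv := fun q => rfl
      right_inv := fun x => rfl }
  rw [Nat.card_congr e, Nat.card_sigma]
  refine (Finset.sum_le_card_nsmul _ _ b fun f _ => hb f).trans (le_of_eq ?_)
  rw [Finset.card_univ, smul_eq_mul, Nat.card_eq_fintype_card]

/-- a homomorphism is determined by its four labels -/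
theorem eq_of_four (f g : Q →g TG n m d) (h9 : (f 9).2 = (g 9).2) (h10 : (f 10).2 = (g 10).2)
    (h11 : (f 11).2 = (g 11).2) (h12 : (f 12).2 = (g 12).2) : f = g := by
  refine eq_of_labQ f g fun i hi => ?_
  have : i = 9 ∨ i = 10 ∨ i = 11 ∨ i = 12 := by
    revert i
    decide
  rcases this with h | h | h | h
  · rw [h]; exact h9
  · rw [h]; exact h10
  · rw [h]; exact h11
  · rw [h]; exact h12

theorem card_GACD : Nat.card (GG {9, 11, 12} →g TG n m d) ≤ Nat.card (Q →g TG n m d) * 1 := by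
  rw [card_glue]
  refine card_pairs (fun f g : Q →g TG n m d => ∀ i ∈ cs {9, 11, 12}, f i = g i) 1 fun f => ?_
  have : Subsingleton {g : Q →g TG n m d // ∀ i ∈ cs {9, 11, 12}, f i = g i} := by
    constructor
    rintro ⟨g, hg⟩ ⟨g', hg'⟩
    refine Subtype.ext ?_
    have k : ∀ i ∈ ({9, 11, 12} : Finset (Fin 13)), (g i).2 = (g' i).2 := fun i hi => by
      rw [← hg i (sub_cs hi), ← hg' i (sub_cs hi)]
    have h9 := k 9 (by decide)
    have h11 := k 11 (by decide)
    have h12 := k 12 (by decide)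
    refine eq_of_four g g' h9 ?_ h11 h12
    have a := all_lab g
    have a' := all_lab g'
    have e1 : (g 10).2 = ((g 11).2 ∩ (g 12).2) \ (g 9).2 := by
      rw [← a.2.2.2.2.2.1, Finset.union_sdiff_cancel_left a.2.2.2.2.1]
    have e2 : (g' 10).2 = ((g' 11).2 ∩ (g' 12).2) \ (g' 9).2 := by
      rw [← a'.2.2.2.2.2.1, Finset.union_sdiff_cancel_left a'.2.2.2.2.1]
    rw [e1, e2, h9, h11, h12]
  exact Finite.card_le_one_iff_subsingleton.2 this

theorem card_GBCD : Nat.card (GG {10, 11, 12} →g TG n m d) ≤ Nat.card (Q →g TG n m d) * 1 := by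
  rw [card_glue]
  refine card_pairs (fun f g : Q →g TG n m d => ∀ i ∈ cs {10, 11, 12}, f i = g i) 1 fun f => ?_
  have : Subsingleton {g : Q →g TG n m d // ∀ i ∈ cs {10, 11, 12}, f i = g i} := by
    constructor
    rintro ⟨g, hg⟩ ⟨g', hg'⟩
    refine Subtype.ext ?_
    have k : ∀ i ∈ ({10, 11, 12} : Finset (Fin 13)), (g i).2 = (g' i).2 := fun i hi => by
      rw [← hg i (sub_cs hi), ← hg' i (sub_cs hi)]
    have h10 := k 10 (by decide)
    have h11 := k 11 (by decide)
    have h12 := k 12 (by decide)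
    refine eq_of_four g g' ?_ h10 h11 h12
    have a := all_lab g
    have a' := all_lab g'
    have e1 : (g 9).2 = ((g 11).2 ∩ (g 12).2) \ (g 10).2 := by
      rw [← a.2.2.2.2.2.1, Finset.union_sdiff_cancel_right a.2.2.2.2.1]
    have e2 : (g' 9).2 = ((g' 11).2 ∩ (g' 12).2) \ (g' 10).2 := by
      rw [← a'.2.2.2.2.2.1, Finset.union_sdiff_cancel_right a'.2.2.2.2.1]
    rw [e1, e2, h10, h11, h12]
  exact Finite.card_le_one_iff_subsingleton.2 this

theorem eq_of_sdiff {U C C' : Finset (Fin n)} (h1 : U ⊆ C) (h2 : U ⊆ C')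
    (h : C \ U = C' \ U) : C = C' := by
  rw [← Finset.sdiff_union_of_subset h1, ← Finset.sdiff_union_of_subset h2, h]

theorem card_GAB : Nat.card (GG {9, 10} →g TG n m d) ≤ Nat.card (Q →g TG n m d) *
    ((n - m).choose d * (n - m).choose d) := by
  rw [card_glue]
  refine card_pairs (fun f g : Q →g TG n m d => ∀ i ∈ cs {9, 10}, f i = g i) _ fun f => ?_
  have hU : ((f 9).2 ∪ (f 10).2).card = m := by
    have a := all_lab f
    rw [a.2.2.2.2.2.1]
    exact a.2.2.2.2.2.2
  have hT : (Finset.powersetCard d ((f 9).2 ∪ (f 10).2)ᶜ ×ˢ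
      Finset.powersetCard d ((f 9).2 ∪ (f 10).2)ᶜ).card =
        (n - m).choose d * (n - m).choose d := by
    rw [Finset.card_product, Finset.card_powersetCard, Finset.card_compl, hU, Fintype.card_fin]
  rw [← hT]
  have k : ∀ g : {g : Q →g TG n m d // ∀ i ∈ cs {9, 10}, f i = g i},
      (g.1 9).2 = (f 9).2 ∧ (g.1 10).2 = (f 10).2 := by
    intro g
    rw [← g.2 9 (sub_cs (by decide)), ← g.2 10 (sub_cs (by decide))]
    exact ⟨rfl, rfl⟩
  have kk : ∀ g : {g : Q →g TG n m d // ∀ i ∈ cs {9, 10}, f i = g i},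
      (f 9).2 ∪ (f 10).2 = (g.1 11).2 ∩ (g.1 12).2 := by
    intro g
    have a := all_lab g.1
    rw [← (k g).1, ← (k g).2, a.2.2.2.2.2.1]
  have k1 : ∀ g : {g : Q →g TG n m d // ∀ i ∈ cs {9, 10}, f i = g i},
      (f 9).2 ∪ (f 10).2 ⊆ (g.1 11).2 := fun g => by
    rw [kk g]; exact Finset.inter_subset_left
  have k2 : ∀ g : {g : Q →g TG n m d // ∀ i ∈ cs {9, 10}, f i = g i},
      (f 9).2 ∪ (f 10).2 ⊆ (g.1 12).2 := fun g => by
    rw [kk g]; exact Finset.inter_subset_right
  refine card_le_finset _ (fun g => ((g.1 11).2 \ ((f 9).2 ∪ (f 10).2),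
    (g.1 12).2 \ ((f 9).2 ∪ (f 10).2))) ?_ ?_
  · intro g g' h
    have h1 := Prod.ext_iff.1 h
    refine Subtype.ext (eq_of_four g.1 g'.1 ?_ ?_ ?_ ?_)
    · rw [(k g).1, (k g').1]
    · rw [(k g).2, (k g').2]
    · exact eq_of_sdiff (k1 g) (k1 g') h1.1
    · exact eq_of_sdiff (k2 g) (k2 g') h1.2
  · intro g
    have a := all_lab g.1
    rw [Finset.mem_product]
    refine ⟨Finset.mem_powersetCard.2 ⟨?_, ?_⟩, Finset.mem_powersetCard.2 ⟨?_, ?_⟩⟩
    · intro x hx
      rw [Finset.mem_compl]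
      exact (Finset.mem_sdiff.1 hx).2
    · simp only
      rw [Finset.card_sdiff_of_subset (k1 g), hU, a.2.2.1]
      omega
    · intro x hx
      rw [Finset.mem_compl]
      exact (Finset.mem_sdiff.1 hx).2
    · simp only
      rw [Finset.card_sdiff_of_subset (k2 g), hU, a.2.2.2.1]
      omega

theorem card_GU (u v : Fin 13) (huv : (u = 11 ∧ v = 12) ∨ (u = 12 ∧ v = 11)) :
    Nat.card (GG {u} →g TG n m d) ≤ Nat.card (Q →g TG n m d) *
      (((m + d).choose m * m) * (n - (m + d)).choose d) := by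
  rw [card_glue]
  refine card_pairs (fun f g : Q →g TG n m d => ∀ i ∈ cs {u}, f i = g i) _ fun f => ?_
  have b : ∀ g : Q →g TG n m d, (g u).2.card = m + d ∧ (g v).2.card = m + d ∧
      (g 9).2 ∪ (g 10).2 = (g u).2 ∩ (g v).2 ∧ ((g u).2 ∩ (g v).2).card = m := by
    intro g
    have a := all_lab g
    rcases huv with ⟨rfl, rfl⟩ | ⟨rfl, rfl⟩
    · exact ⟨a.2.2.1, a.2.2.2.1, a.2.2.2.2.2.1, a.2.2.2.2.2.2⟩
    · rw [Finset.inter_comm (g 12).2]
      exact ⟨a.2.2.2.1, a.2.2.1, a.2.2.2.2.2.1, a.2.2.2.2.2.2⟩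
  have hT : (((Finset.powersetCard m (f u).2).sigma (fun E => Finset.powersetCard 1 E)) ×ˢ
      Finset.powersetCard d (f u).2ᶜ).card =
        ((m + d).choose m * m) * (n - (m + d)).choose d := by
    rw [Finset.card_product, Finset.card_powersetCard, Finset.card_compl, (b f).1,
      Fintype.card_fin, Finset.card_sigma, Finset.sum_congr rfl (g := fun _ => m),
      Finset.sum_const, Finset.card_powersetCard, (b f).1, smul_eq_mul]
    intro E hE
    rw [Finset.card_powersetCard, (Finset.mem_powersetCard.1 hE).2, Nat.choose_one_right]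
  rw [← hT]
  have k : ∀ g : {g : Q →g TG n m d // ∀ i ∈ cs {u}, f i = g i}, (g.1 u).2 = (f u).2 := by
    intro g
    rw [← g.2 u (sub_cs (Finset.mem_singleton_self u))]
  refine card_le_finset _ (fun g => (⟨(f u).2 ∩ (g.1 v).2, (g.1 9).2⟩,
    (g.1 v).2 \ (f u).2)) ?_ ?_
  · intro g g' h
    have h1 := Prod.ext_iff.1 h
    have h2 : (f u).2 ∩ (g.1 v).2 = (f u).2 ∩ (g'.1 v).2 := congrArg Sigma.fst h1.1
    have h3 : (g.1 9).2 = (g'.1 9).2 := congrArg
      (fun x : Σ _ : Finset (Fin n), Finset (Fin n) => x.2) h1.1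
    have h4 : (g.1 v).2 \ (f u).2 = (g'.1 v).2 \ (f u).2 := h1.2
    have hv : (g.1 v).2 = (g'.1 v).2 := by
      have e1 : (g.1 v).2 = ((f u).2 ∩ (g.1 v).2) ∪ ((g.1 v).2 \ (f u).2) := by
        ext x; simp; tauto
      have e2 : (g'.1 v).2 = ((f u).2 ∩ (g'.1 v).2) ∪ ((g'.1 v).2 \ (f u).2) := by
        ext x; simp; tauto
      rw [e1, e2, h2, h4]
    have hu : (g.1 u).2 = (g'.1 u).2 := by rw [k g, k g']
    have h10 : (g.1 10).2 = (g'.1 10).2 := by
      have a := all_lab g.1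
      have a' := all_lab g'.1
      have e1 : (g.1 10).2 = ((g.1 11).2 ∩ (g.1 12).2) \ (g.1 9).2 := by
        rw [← a.2.2.2.2.2.1, Finset.union_sdiff_cancel_left a.2.2.2.2.1]
      have e2 : (g'.1 10).2 = ((g'.1 11).2 ∩ (g'.1 12).2) \ (g'.1 9).2 := by
        rw [← a'.2.2.2.2.2.1, Finset.union_sdiff_cancel_left a'.2.2.2.2.1]
      rw [e1, e2, h3]
      rcases huv with ⟨rfl, rfl⟩ | ⟨rfl, rfl⟩
      · rw [hu, hv]
      · rw [hu, hv]
    refine Subtype.ext (eq_of_four g.1 g'.1 h3 h10 ?_ ?_)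
    · rcases huv with ⟨rfl, rfl⟩ | ⟨rfl, rfl⟩
      · exact hu
      · exact hv
    · rcases huv with ⟨rfl, rfl⟩ | ⟨rfl, rfl⟩
      · exact hv
      · exact hu
  · intro g
    have a := all_lab g.1
    have c := b g.1
    rw [k g] at c
    have h9 : (g.1 9).2 ⊆ (f u).2 ∩ (g.1 v).2 := by
      rw [← c.2.2.1]
      exact Finset.subset_union_left
    rw [Finset.mem_product]
    refine ⟨Finset.mem_sigma.2 ⟨Finset.mem_powersetCard.2 ⟨Finset.inter_subset_left, c.2.2.2⟩,
      Finset.mem_powersetCard.2 ⟨h9, a.1⟩⟩, Finset.mem_powersetCard.2 ⟨?_, ?_⟩⟩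
    · intro x hx
      rw [Finset.mem_compl]
      exact (Finset.mem_sdiff.1 hx).2
    · have h1 := Finset.card_inter_add_card_sdiff (g.1 v).2 (f u).2
      rw [Finset.inter_comm] at h1
      have h2 := c.2.2.2
      have h3 := c.2.1
      simp only
      omega

/-- a homomorphism from four labels -/
def mk4 (s B C D : Finset (Fin n)) (h9 : s.card = 1) (h10 : B.card + 1 = m)
    (h11 : C.card = m + d) (h12 : D.card = m + d) (hd : Disjoint s B) (hsC : s ⊆ C) (hsD : s ⊆ D)
    (hBC : B ⊆ C) (hBD : B ⊆ D) (hI : (C ∩ D).card = m) : Q →g TG n m d where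
  toFun i := (i, if i = 9 then s else if i = 10 then B else if i = 11 then C else
    if i = 12 then D else ∅)
  map_rel' := by
    have ho : ∀ i : Fin 13, okl m d i (if i = 9 then s else if i = 10 then B else
        if i = 11 then C else if i = 12 then D else ∅) := by
      intro i
      refine ⟨fun h => ?_, fun h => ?_, fun h => ?_, fun h => ?_, fun h => ?_⟩
      · rw [if_neg, if_neg, if_neg, if_neg]
        all_goals
          rintro rfl
          revert h
          decide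
      · subst h; simpa using h9
      · subst h; simpa using h10
      · subst h; simpa using h11
      · subst h; simpa using h12
    have hr : ∀ i j : Fin 13, rel m i (if i = 9 then s else if i = 10 then B else
        if i = 11 then C else if i = 12 then D else ∅) j (if j = 9 then s else if j = 10 then B else
        if j = 11 then C else if j = 12 then D else ∅) := by
      intro i j
      refine ⟨fun h h' => ?_, fun h h' => ?_, fun h h' => ?_⟩
      · subst h h'; simpa using hd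
      · rcases h with h | h <;> rcases h' with h' | h' <;> subst h h'
        · simpa using hsC
        · simpa using hsD
        · simpa using hBC
        · simpa using hBD
      · subst h h'; simpa using hI
    intro i j hij
    exact ⟨hij, ho i, ho j, hr i j, hr j i⟩

theorem mk4_9 (s B C D : Finset (Fin n)) (h9 : s.card = 1) (h10 : B.card + 1 = m)
    (h11 : C.card = m + d) (h12 : D.card = m + d) (hd : Disjoint s B) (hsC : s ⊆ C) (hsD : s ⊆ D)
    (hBC : B ⊆ C) (hBD : B ⊆ D) (hI : (C ∩ D).card = m) :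
    (mk4 s B C D h9 h10 h11 h12 hd hsC hsD hBC hBD hI 9).2 = s := rfl

theorem mk4_11 (s B C D : Finset (Fin n)) (h9 : s.card = 1) (h10 : B.card + 1 = m)
    (h11 : C.card = m + d) (h12 : D.card = m + d) (hd : Disjoint s B) (hsC : s ⊆ C) (hsD : s ⊆ D)
    (hBC : B ⊆ C) (hBD : B ⊆ D) (hI : (C ∩ D).card = m) :
    (mk4 s B C D h9 h10 h11 h12 hd hsC hsD hBC hBD hI 11).2 = C := rfl

theorem mk4_12 (s B C D : Finset (Fin n)) (h9 : s.card = 1) (h10 : B.card + 1 = m)
    (h11 : C.card = m + d) (h12 : D.card = m + d) (hd : Disjoint s B) (hsC : s ⊆ C) (hsD : s ⊆ D)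
    (hBC : B ⊆ C) (hBD : B ⊆ D) (hI : (C ∩ D).card = m) :
    (mk4 s B C D h9 h10 h11 h12 hd hsC hsD hBC hBD hI 12).2 = D := rfl

/-- lower bound for the number of homomorphisms of the type graph -/
theorem card_Q_ge : n.choose (m + d) * (((m + d).choose m * m) * (n - (m + d)).choose d) ≤
    Nat.card (Q →g TG n m d) := by
  have hT : ((Finset.powersetCard (m + d) (Finset.univ : Finset (Fin n))).sigma (fun C =>
      ((Finset.powersetCard m C).sigma (fun E => Finset.powersetCard 1 E)) ×ˢ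
      Finset.powersetCard d Cᶜ)).card =
        n.choose (m + d) * (((m + d).choose m * m) * (n - (m + d)).choose d) := by
    rw [Finset.card_sigma, Finset.sum_congr rfl
      (g := fun _ => ((m + d).choose m * m) * (n - (m + d)).choose d), Finset.sum_const,
      Finset.card_powersetCard, Finset.card_univ, Fintype.card_fin, smul_eq_mul]
    intro C hC
    have hC' := (Finset.mem_powersetCard.1 hC).2
    rw [Finset.card_product, Finset.card_powersetCard, Finset.card_compl, hC',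
      Fintype.card_fin, Finset.card_sigma, Finset.sum_congr rfl (g := fun _ => m),
      Finset.sum_const, Finset.card_powersetCard, hC', smul_eq_mul]
    intro E hE
    rw [Finset.card_powersetCard, (Finset.mem_powersetCard.1 hE).2, Nat.choose_one_right]
  rw [← hT, ← Fintype.card_coe, ← Nat.card_eq_fintype_card]
  have hx : ∀ x : {x // x ∈ (Finset.powersetCard (m + d) (Finset.univ : Finset (Fin n))).sigma
      (fun C => ((Finset.powersetCard m C).sigma (fun E => Finset.powersetCard 1 E)) ×ˢ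
      Finset.powersetCard d Cᶜ)}, x.1.1.card = m + d ∧ x.1.2.1.1 ⊆ x.1.1 ∧
        x.1.2.1.1.card = m ∧ x.1.2.1.2 ⊆ x.1.2.1.1 ∧ x.1.2.1.2.card = 1 ∧
        Disjoint x.1.1 x.1.2.2 ∧ x.1.2.2.card = d := by
    intro x
    have h := Finset.mem_sigma.1 x.2
    have h1 := Finset.mem_product.1 h.2
    have h2 := Finset.mem_sigma.1 h1.1
    have h3 := Finset.mem_powersetCard.1 h.1
    have h4 := Finset.mem_powersetCard.1 h1.2
    have h5 := Finset.mem_powersetCard.1 h2.1
    have h6 := Finset.mem_powersetCard.1 h2.2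
    refine ⟨h3.2, h5.1, h5.2, h6.1, h6.2, ?_, h4.2⟩
    rw [Finset.disjoint_left]
    intro y hy hy'
    exact (Finset.mem_compl.1 (h4.1 hy')) hy
  have hI : ∀ (C E F : Finset (Fin n)), E ⊆ C → Disjoint C F → C ∩ (E ∪ F) = E := by
    intro C E F h1 h2
    rw [Finset.inter_union_distrib_left, Finset.disjoint_iff_inter_eq_empty.1 h2,
      Finset.union_empty, Finset.inter_eq_right.2 h1]
  refine Nat.card_le_card_of_injective (fun x => mk4 x.1.2.1.2 (x.1.2.1.1 \ x.1.2.1.2) x.1.1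
    (x.1.2.1.1 ∪ x.1.2.2) (hx x).2.2.2.2.1 ?_ (hx x).1 ?_ Finset.disjoint_sdiff ?_ ?_ ?_ ?_ ?_) ?_
  · have h := hx x
    rw [Finset.card_sdiff_of_subset h.2.2.2.1, h.2.2.1, h.2.2.2.2.1]
    have := Finset.card_le_card h.2.2.2.1
    rw [h.2.2.1, h.2.2.2.2.1] at this
    omega
  · have h := hx x
    rw [Finset.card_union_of_disjoint, h.2.2.1, h.2.2.2.2.2.2]
    exact Finset.disjoint_of_subset_left h.2.1 h.2.2.2.2.2.1
  · have h := hx x
    exact h.2.2.2.1.trans h.2.1
  · have h := hx x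
    exact h.2.2.2.1.trans Finset.subset_union_left
  · have h := hx x
    exact Finset.sdiff_subset.trans h.2.1
  · exact Finset.sdiff_subset.trans Finset.subset_union_left
  · have h := hx x
    rw [hI _ _ _ h.2.1 h.2.2.2.2.2.1]
    exact h.2.2.1
  · intro x y hxy
    have e : ∀ i : Fin 13, (mk4 _ _ _ _ _ _ _ _ _ _ _ _ _ _ : Q →g TG n m d) i =
        (mk4 _ _ _ _ _ _ _ _ _ _ _ _ _ _ : Q →g TG n m d) i :=
      fun i => congrArg (fun f : Q →g TG n m d => f i) hxy
    have hX := hx x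
    have hY := hx y
    have e9 : x.1.2.1.2 = y.1.2.1.2 := by
      have := congrArg Prod.snd (e 9)
      rwa [mk4_9, mk4_9] at this
    have e11 : x.1.1 = y.1.1 := by
      have := congrArg Prod.snd (e 11)
      rwa [mk4_11, mk4_11] at this
    have e12 : x.1.2.1.1 ∪ x.1.2.2 = y.1.2.1.1 ∪ y.1.2.2 := by
      have := congrArg Prod.snd (e 12)
      rwa [mk4_12, mk4_12] at this
    have eE : x.1.2.1.1 = y.1.2.1.1 := by
      rw [← hI _ _ _ hX.2.1 hX.2.2.2.2.2.1, ← hI _ _ _ hY.2.1 hY.2.2.2.2.2.1, e11, e12]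
    have hS : ∀ (C E F : Finset (Fin n)), E ⊆ C → Disjoint C F → (E ∪ F) \ C = F := by
      intro C E F h1 h2
      rw [Finset.union_sdiff_distrib, Finset.sdiff_eq_empty_iff_subset.2 h1, Finset.empty_union]
      exact Finset.sdiff_eq_self_of_disjoint h2.symm
    have eF : x.1.2.2 = y.1.2.2 := by
      rw [← hS _ _ _ hX.2.1 hX.2.2.2.2.2.1, ← hS _ _ _ hY.2.1 hY.2.2.2.2.2.1, e11, e12]
    obtain ⟨⟨C, ⟨⟨E, s⟩, F⟩⟩, hh⟩ := x
    obtain ⟨⟨C', ⟨⟨E', s'⟩, F'⟩⟩, hh'⟩ := y
    simp only at e9 e11 eE eF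
    subst e9 e11 eE eF
    rfl

end target

end Pool.Agent.W5h51.TP
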