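import Pool.Agent.W5h51.TP.Defs
set_option autoImplicit false

/-! General facts: the Farkas lemma, the tropicalization of a multiplicative set. -/

open Topology Filter

namespace Pool.Agent.W5h51.TP

/-- the Farkas lemma (proof of Bartl) -/
theorem farkas {V : Type*} [AddCommGroup V] [Module ℝ V] : ∀ (r : ℕ) (a : Fin r → V →ₗ[ℝ] ℝ)
    (b : V →ₗ[ℝ] ℝ), (∀ y, (∀ j, 0 ≤ a j y) → 0 ≤ b y) →
    ∃ c : Fin r → ℝ, (∀ j, 0 ≤ c j) ∧ ∀ y, b y = ∑ j, c j * a j y := by
  intro r
  induction r with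
  | zero =>
    intro a b h
    refine ⟨fun _ => 0, fun _ => le_rfl, fun y => ?_⟩
    have h1 := h y (fun j => j.elim0)
    have h2 := h (-y) (fun j => j.elim0)
    rw [map_neg] at h2
    simp
    linarith
  | succ r ih =>
    intro a b h
    by_cases hc : ∀ y, (∀ j : Fin r, 0 ≤ a j.succ y) → 0 ≤ b y
    · obtain ⟨c, hc0, hc1⟩ := ih (fun j => a j.succ) b hc
      refine ⟨Fin.cons 0 c, fun j => ?_, fun y => ?_⟩
      · refine Fin.cases ?_ (fun j => ?_) j
        · simp
        · simpa using hc0 j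
      · rw [Fin.sum_univ_succ]
        simp [hc1 y]
    · push Not at hc
      obtain ⟨x, hx, hbx⟩ := hc
      have hax : a 0 x < 0 := by
        by_contra hcon
        push Not at hcon
        have := h x (fun j => by
          refine Fin.cases ?_ (fun j => ?_) j
          · exact hcon
          · exact hx j)
        linarith
      obtain ⟨z, hz⟩ : ∃ z, z = (-(a 0 x))⁻¹ • x := ⟨_, rfl⟩
      have hpos : 0 < (-(a 0 x))⁻¹ := inv_pos.2 (by linarith)
      have z0 : a 0 z = -1 := by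
        rw [hz, map_smul, smul_eq_mul]
        have : a 0 x ≠ 0 := hax.ne
        field_simp
      have zj : ∀ j : Fin r, 0 ≤ a j.succ z := by
        intro j
        rw [hz, map_smul, smul_eq_mul]
        exact mul_nonneg hpos.le (hx j)
      have zb : b z < 0 := by
        rw [hz, map_smul, smul_eq_mul]
        exact mul_neg_of_pos_of_neg hpos hbx
      obtain ⟨c, hc0, hc1⟩ := ih (fun j => a j.succ + (a j.succ z) • a 0) (b + (b z) • a 0)
        (by
          intro y hy
          have h1 := h (y + (a 0 y) • z) (fun j => by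
            refine Fin.cases ?_ (fun j => ?_) j
            · rw [map_add, map_smul, smul_eq_mul, z0]
              linarith
            · have := hy j
              rw [map_add, map_smul, smul_eq_mul]
              simp only [LinearMap.add_apply, LinearMap.smul_apply, smul_eq_mul] at this
              linarith)
          rw [map_add, map_smul, smul_eq_mul] at h1
          simp only [LinearMap.add_apply, LinearMap.smul_apply, smul_eq_mul]
          linarith)
      refine ⟨Fin.cons ((∑ j, c j * a j.succ z) - b z) c, fun j => ?_, fun y => ?_⟩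
      · refine Fin.cases ?_ (fun j => ?_) j
        · simp only [Fin.cons_zero]
          have : 0 ≤ ∑ j, c j * a j.succ z :=
            Finset.sum_nonneg fun j _ => mul_nonneg (hc0 j) (zj j)
          linarith
        · simpa using hc0 j
      · have h1 := hc1 y
        simp only [LinearMap.add_apply, LinearMap.smul_apply, smul_eq_mul, mul_add,
          Finset.sum_add_distrib] at h1
        rw [Fin.sum_univ_succ]
        simp only [Fin.cons_zero, Fin.cons_succ]
        have h2 : ∑ j, c j * (a j.succ z * a 0 y) = (∑ j, c j * a j.succ z) * a 0 y := by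
          rw [Finset.sum_mul]
          exact Finset.sum_congr rfl fun j _ => by ring
        rw [h2] at h1
        linarith

variable {s : ℕ}

/-- the tropicalization is unique -/
theorem pk_unique {A : ℝ → Set (Fin s → ℝ)} {L L' : Set (Fin s → ℝ)} (h : IsPKLimit A L)
    (h' : IsPKLimit A L') : L = L' := by
  apply Set.Subset.antisymm
  · intro y hy
    exact h'.2 y fun U hU => (h.1 y hy U hU).frequently
  · intro y hy
    exact h.2 y fun U hU => (h'.1 y hy U hU).frequently

/-- the logarithms of a multiplicative set are closed under addition -/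
theorem logSet_add {P : Set (Fin s → ℝ)} (hP : ∀ v ∈ P, ∀ w ∈ P, v * w ∈ P) (b : ℝ)
    {x y : Fin s → ℝ} (hx : x ∈ logSet b P) (hy : y ∈ logSet b P) : x + y ∈ logSet b P := by
  obtain ⟨v, hv, hv0, hv1⟩ := hx
  obtain ⟨w, hw, hw0, hw1⟩ := hy
  refine ⟨v * w, hP v hv w hw, fun i => mul_pos (hv0 i) (hw0 i), fun i => ?_⟩
  rw [Pi.add_apply, hv1, hw1, Pi.mul_apply, Real.logb_mul (hv0 i).ne' (hw0 i).ne']

theorem logSet_nsmul {P : Set (Fin s → ℝ)} (hP : ∀ v ∈ P, ∀ w ∈ P, v * w ∈ P) (b : ℝ)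
    {x : Fin s → ℝ} (hx : x ∈ logSet b P) (N : ℕ) : ((N + 1 : ℕ) : ℝ) • x ∈ logSet b P := by
  induction N with
  | zero => simpa using hx
  | succ N ih =>
    have : (((N + 1 + 1 : ℕ) : ℝ)) • x = ((N + 1 : ℕ) : ℝ) • x + x := by
      push_cast
      module
    rw [this]
    exact logSet_add hP b ih hx

theorem logSet_scale {P : Set (Fin s → ℝ)} {b : ℝ} {x : Fin s → ℝ}
    (hx : x ∈ logSet (Real.exp 1) P) : (Real.log b)⁻¹ • x ∈ logSet b P := by
  obtain ⟨v, hv, hv0, hv1⟩ := hx
  refine ⟨v, hv, hv0, fun i => ?_⟩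
  rw [Pi.smul_apply, hv1, Real.logb, Real.logb, Real.log_exp, smul_eq_mul]
  ring

theorem logSet_scale' {P : Set (Fin s → ℝ)} {b : ℝ} {x : Fin s → ℝ} (hx : x ∈ logSet b P) :
    ∃ y ∈ logSet (Real.exp 1) P, x = (Real.log b)⁻¹ • y := by
  obtain ⟨v, hv, hv0, hv1⟩ := hx
  refine ⟨fun i => Real.log (v i), ⟨v, hv, hv0, fun i => ?_⟩, ?_⟩
  · rw [Real.logb, Real.log_exp, div_one]
  · funext i
    rw [Pi.smul_apply, hv1, Real.logb, smul_eq_mul]
    ring

/-- membership in the lower limit -/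
def LI (P : Set (Fin s → ℝ)) (y : Fin s → ℝ) : Prop :=
  ∀ U ∈ 𝓝 y, ∀ᶠ t in 𝓝[>] (0 : ℝ), (U ∩ logSet (1 / t) P).Nonempty

theorem tendsto_log_inv : Tendsto (fun t : ℝ => Real.log (1 / t)) (𝓝[>] 0) atTop := by
  have h1 : Tendsto (fun t : ℝ => (1 / t)) (𝓝[>] 0) atTop := by
    simpa [one_div] using tendsto_inv_nhdsGT_zero (𝕜 := ℝ)
  exact Real.tendsto_log_atTop.comp h1

theorem LI_smul {P : Set (Fin s → ℝ)} (hP : ∀ v ∈ P, ∀ w ∈ P, v * w ∈ P) {x : Fin s → ℝ}
    (hx : x ∈ logSet (Real.exp 1) P) {c : ℝ} (hc : 0 ≤ c) : LI P (c • x) := by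
  have h1 : Tendsto (fun u : ℝ => (((⌊c * u⌋₊ + 1 : ℕ) : ℝ) * u⁻¹)) atTop (𝓝 c) := by
    have h2 : Tendsto (fun u : ℝ => c + u⁻¹) atTop (𝓝 (c + 0)) :=
      tendsto_const_nhds.add tendsto_inv_atTop_zero
    rw [add_zero] at h2
    refine tendsto_of_tendsto_of_tendsto_of_le_of_le' tendsto_const_nhds h2 ?_ ?_
    · filter_upwards [eventually_gt_atTop 0] with u hu
      rw [← div_eq_mul_inv, le_div_iff₀ hu]
      push_cast
      exact (Nat.lt_floor_add_one (c * u)).le
    · filter_upwards [eventually_gt_atTop 0] with u hu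
      rw [← div_eq_mul_inv, div_le_iff₀ hu, add_mul, inv_mul_cancel₀ hu.ne']
      push_cast
      have := Nat.floor_le (mul_nonneg hc hu.le)
      linarith
  have h2 := h1.comp tendsto_log_inv
  have h3 : Tendsto (fun t : ℝ => ((((⌊c * Real.log (1 / t)⌋₊ + 1 : ℕ) : ℝ) *
      (Real.log (1 / t))⁻¹) • x)) (𝓝[>] 0) (𝓝 (c • x)) := h2.smul_const x
  intro U hU
  filter_upwards [h3 hU] with t ht
  refine ⟨_, ht, ?_⟩
  have h4 := logSet_nsmul hP (1 / t) (logSet_scale (b := 1 / t) hx) ⌊c * Real.log (1 / t)⌋₊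
  rw [smul_smul] at h4
  exact h4

theorem LI_add {P : Set (Fin s → ℝ)} (hP : ∀ v ∈ P, ∀ w ∈ P, v * w ∈ P) {x y : Fin s → ℝ}
    (hx : LI P x) (hy : LI P y) : LI P (x + y) := by
  intro U hU
  have h1 : Tendsto (fun p : (Fin s → ℝ) × (Fin s → ℝ) => p.1 + p.2) (𝓝 (x, y)) (𝓝 (x + y)) :=
    (continuous_fst.add continuous_snd).tendsto (x, y)
  have h2 := h1 hU
  rw [nhds_prod_eq, mem_map, mem_prod_iff] at h2
  obtain ⟨V, hV, W, hW, hVW⟩ := h2
  filter_upwards [hx V hV, hy W hW] with t ht1 ht2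
  obtain ⟨a, ha1, ha2⟩ := ht1
  obtain ⟨b, hb1, hb2⟩ := ht2
  exact ⟨a + b, hVW (Set.mk_mem_prod ha1 hb1), logSet_add hP _ ha2 hb2⟩

/-- the tropicalization of a multiplicative set exists and is the closure of the conical hull of its
logarithms -/
theorem isTrop_cone {P : Set (Fin s → ℝ)} (hP : ∀ v ∈ P, ∀ w ∈ P, v * w ∈ P)
    (hne : (logSet (Real.exp 1) P).Nonempty) :
    IsTrop P (closure (coneHull (logSet (Real.exp 1) P))) := by
  obtain ⟨x0, hx0⟩ := hne
  have hsum : ∀ (k : ℕ) (c : Fin k → ℝ) (x : Fin k → Fin s → ℝ), (∀ j, 0 ≤ c j) →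
      (∀ j, x j ∈ logSet (Real.exp 1) P) → LI P (∑ j, c j • x j) := by
    intro k
    induction k with
    | zero =>
      intro c x _ _
      have := LI_smul hP hx0 (le_refl (0 : ℝ))
      simpa using this
    | succ k ih =>
      intro c x hc hx
      rw [Fin.sum_univ_succ]
      exact LI_add hP (LI_smul hP (hx 0) (hc 0)) (ih _ _ (fun j => hc j.succ) (fun j => hx j.succ))
  constructor
  · intro y hy U hU
    obtain ⟨U', hU', hUo, hyU⟩ := mem_nhds_iff.1 hU
    obtain ⟨z, hz1, hz2⟩ := mem_closure_iff.1 hy U' hUo hyU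
    obtain ⟨k, c, x, hc, hx, rfl⟩ := hz2
    filter_upwards [hsum k c x hc hx U' (hUo.mem_nhds hz1)] with t ht
    obtain ⟨w, hw1, hw2⟩ := ht
    exact ⟨w, hU' hw1, hw2⟩
  · intro y hy
    rw [mem_closure_iff_nhds]
    intro U hU
    have h1 : ∀ᶠ t in 𝓝[>] (0 : ℝ), 0 < Real.log (1 / t) :=
      tendsto_log_inv.eventually (eventually_gt_atTop 0)
    obtain ⟨t, ⟨w, hw1, hw2⟩, ht⟩ := ((hy U hU).and_eventually h1).exists
    obtain ⟨x, hx, hxw⟩ := logSet_scale' hw2
    refine ⟨w, hw1, 1, fun _ => (Real.log (1 / t))⁻¹, fun _ => x, fun _ => (inv_pos.2 ht).le,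
      fun _ => hx, ?_⟩
    simpa using hxw

end Pool.Agent.W5h51.TP
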